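import Pool.Agent.Helper53.FM.Defs
import Pool.Agent.Helper53.WR.Tower
import Pool.Agent.Helper28.FM.FillerSelectBal
import Pool.Agent.Helper7.FB.DensPairs
import Pool.Agent.Helper85.FB.DensLe
import Pool.Agent.Helper12.FM.A2D0

/-! Project FM (MP_12a1af_nt, captain helper53), piece FM-A3: the general random set, balanced.
Adapted from Pool/Agent/Helper71/FB/FillerCore.lean. -/

set_option autoImplicit false

namespace Pool.Agent.Helper81.FMR

open Finset hiding dens
open Filter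
open Pool.Agent.Helper53.WR
open Pool.Agent.Helper48.FB (win WinLe dens)
open Pool.Agent.Helper53.FM

lemma dens_nonneg (L x : ℕ) : 0 ≤ dens L x := le_min zero_le_one (Real.sqrt_nonneg _)

lemma dens_le_one (L x : ℕ) : dens L x ≤ 1 := min_le_left _ _

lemma dens_eq_one {L x : ℕ} (h : x + 1 ≤ 16 * L) : dens L x = 1 := by
  unfold dens
  refine min_eq_left ?_
  rw [Real.one_le_sqrt, le_div_iff₀ (by positivity)]
  have h1 : ((x + 1 : ℕ) : ℝ) ≤ ((16 * L : ℕ) : ℝ) := by exact_mod_cast h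
  push_cast at h1
  linarith

lemma two_pow_le_exp (n : ℕ) : (2 : ℝ) ^ n ≤ Real.exp n := by
  have h : (2 : ℝ) ≤ Real.exp 1 := by
    have := Real.exp_one_gt_d9
    linarith
  calc (2 : ℝ) ^ n ≤ (Real.exp 1) ^ n := pow_le_pow_left₀ (by norm_num) h n
    _ = Real.exp n := by rw [← Real.exp_nat_mul, mul_one]

lemma exp_neg_three : Real.exp (-3) ≤ 1 / 8 := by
  have h : (2 : ℝ) ^ 3 ≤ Real.exp ((3 : ℕ) : ℝ) := two_pow_le_exp 3
  push_cast at h
  rw [Real.exp_neg, inv_eq_one_div]
  exact one_div_le_one_div_of_le (by norm_num) (by linarith)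

/-- the density restricted to `[b, 2 ^ L)` -/
noncomputable def pp (b L x : ℕ) : ℝ := if b ≤ x ∧ x < 2 ^ L then dens L x else 0

lemma pp_nonneg (b L x : ℕ) : 0 ≤ pp b L x := by
  unfold pp
  split_ifs
  · exact dens_nonneg L x
  · exact le_rfl

lemma pp_le (b L x : ℕ) : pp b L x ≤ dens L x := by
  unfold pp
  split_ifs
  · exact le_rfl
  · exact dens_nonneg L x

/-- the threshold for windows -/
def thr (L y h : ℕ) : ℕ := 2 * L * h / 2 ^ (Nat.log 2 y / 2) + 1 + 3 * L

lemma thr_ge (L y h : ℕ) :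
    2 * (L : ℝ) * h / 2 ^ (Nat.log 2 y / 2) + 3 * L ≤ thr L y h := by
  unfold thr
  push_cast
  have hD : 0 < 2 ^ (Nat.log 2 y / 2) := by positivity
  have h1 : 2 * L * h < 2 ^ (Nat.log 2 y / 2) * (2 * L * h / 2 ^ (Nat.log 2 y / 2) + 1) :=
    Nat.lt_mul_div_succ _ hD
  have h2 : ((2 * L * h : ℕ) : ℝ) <
      ((2 ^ (Nat.log 2 y / 2) * (2 * L * h / 2 ^ (Nat.log 2 y / 2) + 1) : ℕ) : ℝ) := by
    exact_mod_cast h1
  push_cast at h2
  have h3 : 2 * (L : ℝ) * h / 2 ^ (Nat.log 2 y / 2) ≤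
      ((2 * L * h / 2 ^ (Nat.log 2 y / 2) : ℕ) : ℝ) + 1 := by
    rw [div_le_iff₀ (by positivity)]
    have h4 : ((2 * L * h / 2 ^ (Nat.log 2 y / 2) : ℕ) : ℝ) + 1 =
      ((2 * L * h / 2 ^ (Nat.log 2 y / 2) + 1 : ℕ) : ℝ) := by push_cast; ring
    push_cast at h4
    linarith
  linarith

lemma window_term {b L : ℕ} (hL : 100 ≤ L) (y h : ℕ) :
    Real.exp (Real.exp 1 * ∑ x ∈ Ico y (y + h), pp b L x) / Real.exp 1 ^ thr L y h
      ≤ Real.exp (-(3 * L)) := by
  have h1 : ∑ x ∈ Ico y (y + h), pp b L x ≤ 4 * √L * h / 2 ^ (Nat.log 2 y / 2) :=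
    (Finset.sum_le_sum fun x _ => pp_le b L x).trans (Pool.Agent.Helper85.FB.window_dens_le L y h)
  have hLr : (100 : ℝ) ≤ L := by exact_mod_cast hL
  have h2 : 10 * √(L : ℝ) ≤ L := by
    have k1 : (10 : ℝ) ≤ √L := by
      rw [Real.le_sqrt (by norm_num) (by positivity)]
      linarith
    calc 10 * √(L : ℝ) ≤ √L * √L := mul_le_mul_of_nonneg_right k1 (Real.sqrt_nonneg _)
      _ = L := Real.mul_self_sqrt (by positivity)
  have he := Real.exp_one_lt_d9
  have he0 := Real.exp_pos 1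
  have h3 : Real.exp 1 * (4 * √L * h / 2 ^ (Nat.log 2 y / 2)) ≤
      2 * (L : ℝ) * h / 2 ^ (Nat.log 2 y / 2) := by
    rw [← mul_div_assoc]
    refine div_le_div_of_nonneg_right ?_ (by positivity)
    have k1 : Real.exp 1 * (4 * √L) ≤ 2 * L := by
      have k2 : 0 ≤ √(L : ℝ) := Real.sqrt_nonneg _
      nlinarith
    calc Real.exp 1 * (4 * √L * h) = (Real.exp 1 * (4 * √L)) * h := by ring
      _ ≤ (2 * L) * h := mul_le_mul_of_nonneg_right k1 (by positivity)
  have h4 := thr_ge L y h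
  have h5 : Real.exp 1 ^ thr L y h = Real.exp (thr L y h) := by
    rw [← Real.exp_nat_mul, mul_one]
  rw [h5, ← Real.exp_sub]
  refine Real.exp_le_exp.2 ?_
  have h6 := mul_le_mul_of_nonneg_left h1 he0.le
  linarith

lemma rep_term {b L : ℕ} (hL : 100 ≤ L) (n : ℕ) :
    Real.exp (Real.exp 1 * ∑ x ∈ (range n).filter (fun x => x < n - x), pp b L x * pp b L (n - x))
      / Real.exp 1 ^ (100 * L) ≤ Real.exp (-(13 * L)) := by
  have h1 : ∑ x ∈ (range n).filter (fun x => x < n - x), pp b L x * pp b L (n - x) ≤ 32 * L := by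
    refine le_trans (Finset.sum_le_sum fun x _ => ?_) (Pool.Agent.Helper7.FB.pairs_dens_le L n)
    exact mul_le_mul (pp_le b L x) (pp_le b L _) (pp_nonneg b L _) (dens_nonneg L x)
  have he := Real.exp_one_lt_d9
  have he0 := Real.exp_pos 1
  have h5 : Real.exp 1 ^ (100 * L) = Real.exp ((100 * L : ℕ) : ℝ) := by
    rw [← Real.exp_nat_mul, mul_one]
  rw [h5, ← Real.exp_sub]
  refine Real.exp_le_exp.2 ?_
  push_cast
  have h6 := mul_le_mul_of_nonneg_left h1 he0.le
  have hL0 : (0 : ℝ) ≤ L := by positivity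
  nlinarith

lemma cov_term {b L n : ℕ} (hL : 100 ≤ L) (hn : n < 2 ^ L) (hb : 4 * b ≤ n)
    (hn2 : 16 * L < n + 1) :
    Real.exp (-(∑ x ∈ (range n).filter (fun x => x < n - x ∧ n ≤ 4 * x),
      pp b L x * pp b L (n - x))) ≤ Real.exp (-(4 * L - 2)) := by
  refine Real.exp_le_exp.2 (neg_le_neg ?_)
  refine (Pool.Agent.Helper12.FM.le_pairs_dens_bal hL hb hn2).trans (le_of_eq ?_)
  refine Finset.sum_congr rfl fun x hx => ?_
  obtain ⟨hx1, hx2⟩ := Finset.mem_filter.1 hx
  have hx3 := Finset.mem_range.1 hx1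
  have k1 : x < 2 ^ L := by omega
  have k2 : n - x < 2 ^ L := by omega
  unfold pp
  simp only [k1, k2, and_true]

/-- FM-A3 (the general random set, balanced). Uses A1, A2. -/
theorem filler_core_bal (b L : ℕ) (hL : 100 ≤ L) {J : Type} (fam : Finset J) (Y : J → Finset ℕ)
    (A : J → ℝ) (y : J → ℕ) (hA : ∀ j ∈ fam, 1 ≤ A j)
    (hsum : ∑ j ∈ fam, Real.exp (A j * ∑ x ∈ (Y j).filter (fun x => b ≤ x ∧ x < 2 ^ L),
      dens L x) / A j ^ y j < 1 / 2) :
    ∃ R : Finset ℕ, (∀ x ∈ R, b ≤ x ∧ x < 2 ^ L) ∧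
      (∀ x, b ≤ x → x < 2 ^ L → x < 16 * L → x ∈ R) ∧
      (∀ n, 2 ≤ n → 4 * b ≤ n → n < 2 ^ L → ∃ x ∈ R, ∃ z ∈ R, x + z = n ∧ n ≤ 4 * x ∧ n ≤ 4 * z) ∧
      (∀ n, repF R n ≤ 201 * L) ∧ WinLe R (16 * L) ∧ ∀ j ∈ fam, (R ∩ Y j).card < y j := by
  classical
  have hLr : (100 : ℝ) ≤ L := by exact_mod_cast hL
  obtain ⟨R, hRX, hR1, hR2, hR3, hR4⟩ := Pool.Agent.Helper28.FM.filler_select_bal (Ico b (2 ^ L)) (pp b L)
    (pp_nonneg b L) (fun x => (pp_le b L x).trans (dens_le_one L x))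
    (by
      intro x hx
      unfold pp
      rw [if_neg]
      rwa [← Finset.mem_Ico])
    ((range (2 ^ L)).filter (fun n => 4 * b ≤ n ∧ 16 * L < n + 1)) (range (2 ^ (L + 1)))
    (100 * L) (fam.disjSum (range (2 ^ L) ×ˢ Icc 1 (2 ^ L)))
    (Sum.elim Y (fun w : ℕ × ℕ => Ico w.1 (w.1 + w.2)))
    (Sum.elim A (fun _ => Real.exp 1)) (Sum.elim y (fun w : ℕ × ℕ => thr L w.1 w.2))
    (by
      rintro (j | w) hj
      · exact hA j (by simpa using hj)
      · show 1 ≤ Real.exp 1
        exact Real.one_le_exp (by norm_num))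
    (by
      rw [Finset.sum_disjSum]
      simp only [Sum.elim_inl, Sum.elim_inr]
      have s1 : ∑ n ∈ (range (2 ^ L)).filter (fun n => 4 * b ≤ n ∧ 16 * L < n + 1),
          Real.exp (-(∑ x ∈ (range n).filter (fun x => x < n - x ∧ n ≤ 4 * x),
            pp b L x * pp b L (n - x))) ≤ 1 / 8 := by
        calc ∑ n ∈ (range (2 ^ L)).filter (fun n => 4 * b ≤ n ∧ 16 * L < n + 1),
              Real.exp (-(∑ x ∈ (range n).filter (fun x => x < n - x ∧ n ≤ 4 * x),
                pp b L x * pp b L (n - x)))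
            ≤ ∑ n ∈ (range (2 ^ L)).filter (fun n => 4 * b ≤ n ∧ 16 * L < n + 1),
              Real.exp (-(4 * L - 2)) := by
              refine Finset.sum_le_sum fun n hn => ?_
              obtain ⟨h1, h2, h3⟩ := Finset.mem_filter.1 hn
              exact cov_term hL (Finset.mem_range.1 h1) h2 h3
          _ ≤ ∑ n ∈ range (2 ^ L), Real.exp (-(4 * L - 2)) :=
              Finset.sum_le_sum_of_subset_of_nonneg (Finset.filter_subset _ _)
                (fun _ _ _ => (Real.exp_pos _).le)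
          _ = (2 : ℝ) ^ L * Real.exp (-(4 * L - 2)) := by
              rw [Finset.sum_const, Finset.card_range, nsmul_eq_mul]
              push_cast
              ring
          _ ≤ Real.exp L * Real.exp (-(4 * L - 2)) :=
              mul_le_mul_of_nonneg_right (two_pow_le_exp L) (Real.exp_pos _).le
          _ = Real.exp (L + -(4 * L - 2)) := (Real.exp_add _ _).symm
          _ ≤ Real.exp (-3) := Real.exp_le_exp.2 (by linarith)
          _ ≤ 1 / 8 := exp_neg_three
      have s2 : ∑ n ∈ range (2 ^ (L + 1)), Real.exp (Real.exp 1 *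
          ∑ x ∈ (range n).filter (fun x => x < n - x), pp b L x * pp b L (n - x))
            / Real.exp 1 ^ (100 * L) ≤ 1 / 8 := by
        calc ∑ n ∈ range (2 ^ (L + 1)), Real.exp (Real.exp 1 *
              ∑ x ∈ (range n).filter (fun x => x < n - x), pp b L x * pp b L (n - x))
                / Real.exp 1 ^ (100 * L)
            ≤ ∑ n ∈ range (2 ^ (L + 1)), Real.exp (-(13 * L)) :=
              Finset.sum_le_sum fun n _ => rep_term hL n
          _ = (2 : ℝ) ^ (L + 1) * Real.exp (-(13 * L)) := by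
              rw [Finset.sum_const, Finset.card_range, nsmul_eq_mul]
              push_cast
              ring
          _ ≤ Real.exp ((L + 1 : ℕ) : ℝ) * Real.exp (-(13 * L)) :=
              mul_le_mul_of_nonneg_right (two_pow_le_exp (L + 1)) (Real.exp_pos _).le
          _ = Real.exp (((L + 1 : ℕ) : ℝ) + -(13 * L)) := (Real.exp_add _ _).symm
          _ ≤ Real.exp (-3) := Real.exp_le_exp.2 (by push_cast; linarith)
          _ ≤ 1 / 8 := exp_neg_three
      have s3 : ∑ j ∈ fam, Real.exp (A j * ∑ x ∈ Y j, pp b L x) / A j ^ y j < 1 / 2 := by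
        refine lt_of_eq_of_lt (Finset.sum_congr rfl fun j _ => ?_) hsum
        rw [Finset.sum_filter]
        rfl
      have s4 : ∑ w ∈ range (2 ^ L) ×ˢ Icc 1 (2 ^ L),
          Real.exp (Real.exp 1 * ∑ x ∈ Ico w.1 (w.1 + w.2), pp b L x)
            / Real.exp 1 ^ thr L w.1 w.2 ≤ 1 / 8 := by
        calc ∑ w ∈ range (2 ^ L) ×ˢ Icc 1 (2 ^ L),
              Real.exp (Real.exp 1 * ∑ x ∈ Ico w.1 (w.1 + w.2), pp b L x)
                / Real.exp 1 ^ thr L w.1 w.2
            ≤ ∑ w ∈ range (2 ^ L) ×ˢ Icc 1 (2 ^ L), Real.exp (-(3 * L)) :=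
              Finset.sum_le_sum fun w _ => window_term hL w.1 w.2
          _ = ((2 : ℝ) ^ L * (2 : ℝ) ^ L) * Real.exp (-(3 * L)) := by
              rw [Finset.sum_const, Finset.card_product, Finset.card_range, Nat.card_Icc,
                nsmul_eq_mul, Nat.add_sub_cancel]
              push_cast
              ring
          _ ≤ (Real.exp L * Real.exp L) * Real.exp (-(3 * L)) := by
              refine mul_le_mul_of_nonneg_right ?_ (Real.exp_pos _).le
              exact mul_le_mul (two_pow_le_exp L) (two_pow_le_exp L) (by positivity)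
                (Real.exp_pos _).le
          _ = Real.exp (L + L + -(3 * L)) := by rw [Real.exp_add, Real.exp_add]
          _ ≤ Real.exp (-3) := Real.exp_le_exp.2 (by linarith)
          _ ≤ 1 / 8 := exp_neg_three
      linarith)
  have hR : ∀ x ∈ R, b ≤ x ∧ x < 2 ^ L := fun x hx => Finset.mem_Ico.1 (hRX hx)
  have hwin : ∀ y0 h, y0 < 2 ^ L → 1 ≤ h → h ≤ 2 ^ L →
      (win R y0 h).card * 2 ^ (Nat.log 2 y0 / 2) ≤ 16 * L * (h + 2 ^ (Nat.log 2 y0 / 2)) := by
    intro y0 h h1 h2 h3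
    have k1 := hR4 (Sum.inr (y0, h)) (by
      rw [Finset.inr_mem_disjSum, Finset.mem_product]
      exact ⟨Finset.mem_range.2 h1, Finset.mem_Icc.2 ⟨h2, h3⟩⟩)
    simp only [Sum.elim_inr] at k1
    have k2 : win R y0 h = R ∩ Ico y0 (y0 + h) := by
      ext x
      simp only [win, Finset.mem_filter, Finset.mem_inter, Finset.mem_Ico]
    rw [k2]
    have k3 : (R ∩ Ico y0 (y0 + h)).card ≤ 2 * L * h / 2 ^ (Nat.log 2 y0 / 2) + 3 * L := by
      unfold thr at k1
      omega
    calc (R ∩ Ico y0 (y0 + h)).card * 2 ^ (Nat.log 2 y0 / 2)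
        ≤ (2 * L * h / 2 ^ (Nat.log 2 y0 / 2) + 3 * L) * 2 ^ (Nat.log 2 y0 / 2) :=
          Nat.mul_le_mul_right _ k3
      _ = 2 * L * h / 2 ^ (Nat.log 2 y0 / 2) * 2 ^ (Nat.log 2 y0 / 2)
          + 3 * L * 2 ^ (Nat.log 2 y0 / 2) := by ring
      _ ≤ 2 * L * h + 3 * L * 2 ^ (Nat.log 2 y0 / 2) :=
          Nat.add_le_add_right (Nat.div_mul_le_self _ _) _
      _ ≤ 16 * L * (h + 2 ^ (Nat.log 2 y0 / 2)) := by
          nlinarith [Nat.zero_le (L * h), Nat.zero_le (L * 2 ^ (Nat.log 2 y0 / 2))]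
  have hsm : ∀ x, b ≤ x → x < 2 ^ L → x < 16 * L → x ∈ R := by
    intro x hx1 hx2 hx3
    refine hR1 x (Finset.mem_Ico.2 ⟨hx1, hx2⟩) ?_
    unfold pp
    rw [if_pos ⟨hx1, hx2⟩]
    exact dens_eq_one (by omega)
  refine ⟨R, hR, hsm, ?_, ?_, ?_, ?_⟩
  · intro n hn0 hn1 hn2
    rcases Nat.lt_or_ge (16 * L) (n + 1) with h | h
    · exact hR2 n (Finset.mem_filter.2 ⟨Finset.mem_range.2 hn2, hn1, h⟩)
    · exact ⟨n / 2, hsm _ (by omega) (by omega) (by omega), n - n / 2,
        hsm _ (by omega) (by omega) (by omega), by omega, by omega, by omega⟩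
  · intro n
    rcases Nat.lt_or_ge n (2 ^ (L + 1)) with h | h
    · have := hR3 n (Finset.mem_range.2 h)
      omega
    · have h0 : repF R n = 0 := by
        unfold repF
        rw [Finset.card_eq_zero, Finset.filter_eq_empty_iff]
        intro z hz
        obtain ⟨hz1, hz2⟩ := Finset.mem_product.1 hz
        have k1 := (hR _ hz1).2
        have k2 := (hR _ hz2).2
        have k3 : 2 ^ (L + 1) = 2 * 2 ^ L := by ring
        omega
      omega
  · intro y0 h
    rcases Nat.lt_or_ge y0 (2 ^ L) with hy | hy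
    · rcases Nat.eq_zero_or_pos h with rfl | hh
      · have h0 : win R y0 0 = ∅ := by
          unfold win
          rw [Finset.filter_eq_empty_iff]
          intro x _
          omega
        rw [h0, Finset.card_empty, Nat.zero_mul]
        exact Nat.zero_le _
      · rcases Nat.lt_or_ge (2 ^ L) h with h2 | h2
        · have h0 : win R y0 h = win R y0 (2 ^ L) := by
            unfold win
            refine Finset.filter_congr fun x hx => ?_
            have := (hR x hx).2
            omega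
          rw [h0]
          refine (hwin y0 (2 ^ L) hy Nat.one_le_two_pow le_rfl).trans ?_
          exact Nat.mul_le_mul_left _ (by omega)
        · exact hwin y0 h hy hh h2
    · have h0 : win R y0 h = ∅ := by
        unfold win
        rw [Finset.filter_eq_empty_iff]
        intro x hx
        have := (hR x hx).2
        omega
      rw [h0, Finset.card_empty, Nat.zero_mul]
      exact Nat.zero_le _
  · intro j hj
    have := hR4 (Sum.inl j) (Finset.inl_mem_disjSum.2 hj)
    simpa only [Sum.elim_inl] using this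

end Pool.Agent.Helper81.FMR
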