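import Pool.Agent.Helper53.FM.Defs
import Pool.Agent.Helper53.WR.Tower
import Pool.Agent.Helper53.FM.Rl.A3

/-! Project FM, pieces A4 (start of the levels) and C0 (thresholds of the cross sums). -/

set_option autoImplicit false

namespace Pool.Agent.Helper8.FMR

open Finset
open Pool.Agent.Helper53.WR
open Pool.Agent.Helper48.FB (win crossF Cs WinLe Fs Dk LR zR dens)
open Pool.Agent.Helper53.FM
open Pool.Agent.Helper81.FMR (filler_core_bal)

lemma winLe_mono {A : Finset ℕ} {W W' : ℕ} (h : WinLe A W) (hW : W ≤ W') : WinLe A W' :=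
  fun y l => (h y l).trans (Nat.mul_le_mul_right _ hW)

/-- FM-A4 (start of the levels; from A3 with `b = 0`, `L = J` and an empty family). -/
theorem mtop_base (J : ℕ) (hJ : 100 ≤ J) :
    ∃ T, MTop J (Cs * (J + 1)) (Nat.log 2 (16 * J) + 1) 4 (fun _ => Cs * (J + 1))
      (fun _ => Cs * (J + 1)) T (fun _ => T) (fun _ => ∅) := by
  obtain ⟨R, h1, h0, h2, h3, h4, -⟩ := filler_core_bal 0 J hJ (J := Empty) ∅ (fun j => j.elim)
    (fun j => j.elim) (fun j => j.elim) (by simp) (by simp)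
  have hF : ∀ n, repF R n ≤ Cs * (J + 1) := by
    intro n
    refine (h3 n).trans ?_
    unfold Cs
    omega
  have hpow : 2 ^ 1 ≤ 2 ^ J := Nat.pow_le_pow_right (by norm_num) (by omega)
  have hcov : ∀ n, 2 ≤ n → n < 2 ^ J →
      ∃ x ∈ R, ∃ y ∈ R, x + y = n ∧ n ≤ 4 * x ∧ n ≤ 4 * y := fun n hn2 hn => h2 n hn2 (by omega) hn
  refine ⟨R, ?_⟩
  exact
    { sub := fun _ => Subset.rfl
      lt := fun x hx => (h1 x hx).2
      zo := ⟨h0 0 le_rfl (by omega) (by omega), h0 1 (by omega) (by omega) (by omega)⟩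
      cov := hcov
      rep := hF
      rep' := fun _ n => hF n
      wn := winLe_mono h4 (Nat.lt_pow_succ_log_self (by norm_num) _).le
      prof := fun _ n _ _ => hF n
      good := by
        intro _ j hj1 hj _ n hn1 hn2
        have hn : 2 ≤ n := by
          calc 2 = 2 ^ 1 := rfl
            _ ≤ 2 ^ j := Nat.pow_le_pow_right (by norm_num) hj1
            _ ≤ n := hn1
        obtain ⟨x, hx, y, hy, hxy⟩ := hcov n hn
          (hn2.trans_le (Nat.pow_le_pow_right (by norm_num) hj))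
        exact ⟨x, mem_coe.2 hx, y, mem_coe.2 hy, hxy⟩ }

/-- FM-C0 (the thresholds for the cross sums are small). -/
theorem cross_le {a u e κ w c : ℕ → ℕ} (h : MTow a u e κ w c) (k d : ℕ) :
    2 * (4096 * (tD (a k) (e k) d * Dk κ k)) ≤ a k := by
  have hcr := h.cr k
  have hea : e k ≤ a k := by
    have h1 := h.tow.eu k
    have h2 := h.tow.ua k
    omega
  unfold tD
  generalize hD : Dk κ k = D at hcr ⊢
  generalize hX : 44 * a k / (e k + d) = X
  have h1 : X * (e k + d) ≤ 44 * a k := by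
    rw [← hX]
    exact Nat.div_mul_le_self _ _
  have h2 : 2 ^ 20 * (X * D) ≤ X * (e k + d) := by
    calc 2 ^ 20 * (X * D) = X * (2 ^ 20 * D) := by ring
      _ ≤ X * (e k + d) := Nat.mul_le_mul_left _ (by omega)
  have e1 : 2 * (4096 * ((X + 1) * D)) = 2 ^ 13 * (X * D) + 2 ^ 13 * D := by ring
  rw [e1]
  omega

end Pool.Agent.Helper8.FMR
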