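import Pool.Agent.Helper53.FM.Defs
import Pool.Agent.Helper53.WR.Tower
import Pool.Agent.Helper39.FM.B7
import Pool.Agent.Helper53.FM.Rl.B5
import Pool.Agent.Helper65.FM.WnOf3
import Pool.Agent.Helper57.FB.Windows

/-!
# FM-B8: one world of a tower (adapted from Helper59/FB/World.lean)
-/

set_option autoImplicit false

namespace Pool.Agent.Helper67.FMR

open Finset
open Pool.Agent.Helper53.WR
open Pool.Agent.Helper48.FB (win crossF Cs WinLe Fs Dk LR zR dens)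
open Pool.Agent.Helper53.FM

/-- `hSS` of `world_exists3`. -/
lemma tSS_bound {a th q : ℕ} (ha : 4 ≤ a) (hth : th ≤ a) (hq : q ≤ 2 ^ (a + 1)) :
    (((2 ^ th : ℕ) : ℝ)) * (Real.exp (2 * (9 * (q : ℝ) ^ 2 / ((2 ^ th : ℕ) : ℝ))) /
      (2 : ℝ) ^ (2 ^ (2 * a - th + 7))) < 1 / 4 := by
  have hqr : (q : ℝ) ≤ 2 ^ (a + 1) := by exact_mod_cast hq
  have e1 : 2 * (9 * (q : ℝ) ^ 2 / ((2 ^ th : ℕ) : ℝ)) ≤ 72 * ((2 ^ (2 * a - th) : ℕ) : ℝ) := by
    have h0 : (0 : ℝ) < ((2 ^ th : ℕ) : ℝ) := by positivity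
    rw [mul_div_assoc', div_le_iff₀ h0]
    have h1 : (q : ℝ) ^ 2 ≤ 2 ^ (2 * a + 2) := by
      calc (q : ℝ) ^ 2 ≤ (2 ^ (a + 1)) ^ 2 := by gcongr
        _ = 2 ^ (2 * a + 2) := by rw [← pow_mul]; congr 1; ring
    have h2 : (((2 ^ (2 * a - th) : ℕ) : ℝ)) * ((2 ^ th : ℕ) : ℝ) = 2 ^ (2 * a) := by
      push_cast
      rw [← pow_add]
      congr 1
      omega
    rw [mul_assoc, h2]
    have h3 : (2 : ℝ) ^ (2 * a + 2) = 2 ^ (2 * a) * 4 := by rw [pow_add]; norm_num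
    rw [h3] at h1
    linarith
  have e2 : Real.exp 72 ≤ 2 ^ 104 := by
    have h1 : Real.exp 1 ^ 9 ≤ 2 ^ 13 := by
      calc Real.exp 1 ^ 9 ≤ (2.7182818286 : ℝ) ^ 9 :=
            pow_le_pow_left₀ (Real.exp_pos 1).le Real.exp_one_lt_d9.le 9
        _ ≤ 2 ^ 13 := by norm_num
    calc Real.exp 72 = (Real.exp 1 ^ 9) ^ 8 := by
          rw [← pow_mul, ← Real.exp_nat_mul]
          norm_num
      _ ≤ (2 ^ 13) ^ 8 := pow_le_pow_left₀ (by positivity) h1 8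
      _ = 2 ^ 104 := by norm_num
  have e3 : Real.exp (2 * (9 * (q : ℝ) ^ 2 / ((2 ^ th : ℕ) : ℝ))) ≤
      2 ^ (104 * 2 ^ (2 * a - th)) := by
    calc _ ≤ Real.exp (72 * ((2 ^ (2 * a - th) : ℕ) : ℝ)) := Real.exp_le_exp.mpr e1
      _ = Real.exp 72 ^ (2 ^ (2 * a - th)) := by
        rw [← Real.exp_nat_mul]
        congr 1
        ring
      _ ≤ (2 ^ 104) ^ (2 ^ (2 * a - th)) := pow_le_pow_left₀ (Real.exp_pos _).le e2 _
      _ = _ := (pow_mul _ _ _).symm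
  have e4 : 2 ^ (2 * a - th + 7) = 104 * 2 ^ (2 * a - th) + 24 * 2 ^ (2 * a - th) := by
    rw [pow_add]
    ring
  have e5 : th + 3 ≤ 24 * 2 ^ (2 * a - th) := by
    have h1 : 2 ^ a ≤ 2 ^ (2 * a - th) := Nat.pow_le_pow_right (by norm_num) (by omega)
    have h2 : a < 2 ^ a := Nat.lt_two_pow_self
    omega
  rw [mul_div_assoc', div_lt_iff₀ (by positivity), e4, pow_add (2 : ℝ) (104 * 2 ^ (2 * a - th))]
  have e6 : (((2 ^ th : ℕ) : ℝ)) * 8 ≤ 2 ^ (24 * 2 ^ (2 * a - th)) := by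
    push_cast
    calc (2 : ℝ) ^ th * 8 = 2 ^ (th + 3) := by rw [pow_add]; norm_num
      _ ≤ _ := pow_le_pow_right₀ (by norm_num) e5
  have e7 : (0 : ℝ) < 2 ^ (104 * 2 ^ (2 * a - th)) := by positivity
  calc (((2 ^ th : ℕ) : ℝ)) * Real.exp (2 * (9 * (q : ℝ) ^ 2 / ((2 ^ th : ℕ) : ℝ)))
      ≤ (((2 ^ th : ℕ) : ℝ)) * 2 ^ (104 * 2 ^ (2 * a - th)) := by gcongr
    _ < 2 * (((2 ^ th : ℕ) : ℝ)) * 2 ^ (104 * 2 ^ (2 * a - th)) := by
      have : (0 : ℝ) < ((2 ^ th : ℕ) : ℝ) := by positivity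
      nlinarith [mul_pos this e7]
    _ ≤ 1 / 4 * (2 ^ (104 * 2 ^ (2 * a - th)) * 2 ^ (24 * 2 ^ (2 * a - th))) := by
      have := mul_le_mul_of_nonneg_left e6 e7.le
      linarith

/-- `hL` of `world_exists3`. -/
lemma tL_bound {a th la q : ℕ} (ha : 16 ≤ a) (hth : th ≤ la) (hla : la ≤ a)
    (hq : q ≤ 2 ^ (a + 1)) :
    (q : ℝ) ^ 4 * (2 * ((2 ^ th : ℕ) : ℝ) + ((2 ^ la : ℕ) : ℝ)) *
      Real.exp (-((6 * a : ℕ) : ℝ)) < 1 / 8 := by
  have hqr : (q : ℝ) ≤ 2 ^ (a + 1) := by exact_mod_cast hq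
  have h1 : (q : ℝ) ^ 4 ≤ 2 ^ (4 * a + 4) := by
    calc (q : ℝ) ^ 4 ≤ (2 ^ (a + 1)) ^ 4 := by gcongr
      _ = 2 ^ (4 * a + 4) := by rw [← pow_mul]; congr 1; ring
  have h2 : 2 * ((2 ^ th : ℕ) : ℝ) + ((2 ^ la : ℕ) : ℝ) ≤ 2 ^ (a + 2) := by
    have e1 : (2 : ℝ) ^ th ≤ 2 ^ a := pow_le_pow_right₀ (by norm_num) (by omega)
    have e2 : (2 : ℝ) ^ la ≤ 2 ^ a := pow_le_pow_right₀ (by norm_num) (by omega)
    have e3 : (2 : ℝ) ^ (a + 2) = 2 ^ a * 4 := by rw [pow_add]; norm_num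
    have e4 : (0 : ℝ) < 2 ^ a := by positivity
    push_cast
    rw [e3]
    linarith
  have h3 : (2 : ℝ) ^ (8 * a) ≤ Real.exp ((6 * a : ℕ) : ℝ) := by
    have e1 : (2 : ℝ) ^ 8 ≤ Real.exp 1 ^ 6 := by
      calc (2 : ℝ) ^ 8 ≤ (2.7182818283 : ℝ) ^ 6 := by norm_num
        _ ≤ Real.exp 1 ^ 6 := pow_le_pow_left₀ (by norm_num) Real.exp_one_gt_d9.le 6
    calc (2 : ℝ) ^ (8 * a) = (2 ^ 8) ^ a := pow_mul _ _ _
      _ ≤ (Real.exp 1 ^ 6) ^ a := pow_le_pow_left₀ (by positivity) e1 a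
      _ = Real.exp ((6 * a : ℕ) : ℝ) := by
        rw [← pow_mul, ← Real.exp_nat_mul]
        congr 1
        ring
  have h4 : (0 : ℝ) < Real.exp ((6 * a : ℕ) : ℝ) := Real.exp_pos _
  rw [Real.exp_neg, ← div_eq_mul_inv, div_lt_iff₀ h4]
  calc (q : ℝ) ^ 4 * (2 * ((2 ^ th : ℕ) : ℝ) + ((2 ^ la : ℕ) : ℝ))
      ≤ 2 ^ (4 * a + 4) * 2 ^ (a + 2) := by gcongr
    _ = 2 ^ (5 * a + 6) := by rw [← pow_add]; congr 1; ring
    _ < 2 ^ (5 * a + 7) := pow_lt_pow_right₀ (by norm_num) (by omega)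
    _ = 1 / 8 * (2 ^ (5 * a + 7) * 2 ^ 3) := by
      ring
    _ = 1 / 8 * 2 ^ (5 * a + 10) := by
      rw [← pow_add]
    _ ≤ 1 / 8 * 2 ^ (8 * a) := by
      have : (2 : ℝ) ^ (5 * a + 10) ≤ 2 ^ (8 * a) := pow_le_pow_right₀ (by norm_num) (by omega)
      linarith
    _ ≤ 1 / 8 * Real.exp ((6 * a : ℕ) : ℝ) := by linarith

/-- FM-B8 (one world of a tower). -/
theorem mtower_world {a u e κ w c : ℕ → ℕ} (h : MTow a u e κ w c) (f g : ℕ → ℕ) (k : ℕ)
    (q : ℕ → ℕ) (hq : ∀ i, (q i).Prime ∧ 2 ^ (a i) < q i ∧ q i ≤ 2 ^ (a i + 1))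
    (T O : Finset ℕ) (T' B : ℕ → Finset ℕ)
    (hT : MTop (laT u k) (Fs u k) (w k) (c k) f g T T' B) (hO : MI a u e κ w c q k O) :
    ∃ A A', MW a u e κ w c f g q B k O A A' := by
  classical
  have hsm := h.tow.strictMono
  have hmu := h.tow.mono_u
  have hme := h.tow.mono_e
  have hadd := h.tow.step k
  have e300 := h.tow.e300 k
  have eu := h.tow.eu k
  have ua := h.tow.ua k
  have uu := h.tow.uu k
  have uu' := h.tow.uu' k
  have h20 := h.tow.h20 k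
  have hfe := h.tow.hf k
  have ht := h.tow.ht k
  have huk := h.tow.hκ k
  have hL' : Lin 300 (a k) (e k) (u k) (u (k + 1)) (u k) :=
    ⟨le_rfl, e300, eu, ua, uu, uu', le_rfl, uu'⟩
  have hla : laT u k + 5 = 4 * u k + 8 * u (k + 1) := by
    unfold laT
    omega
  have hth : thT u e k = 8 * u k + 64 * e k := rfl
  have : Fact (q k).Prime := ⟨(hq k).1⟩
  have hqk1 : 2 ^ a k < q k := (hq k).2.1
  have hqk2 : q k ≤ 2 ^ (a k + 1) := (hq k).2.2
  have hq16 : 16 < q k := by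
    have : 2 ^ 4 ≤ 2 ^ a k := Nat.pow_le_pow_right (by norm_num) (by omega)
    omega
  -- the near moduli
  have hnear : ∀ i ∈ nearT a k, 2 ^ (a k + u k) < q i ∧ q i ≤ 2 ^ (3 * a k + 1) ∧ k < i := by
    intro i hi
    rw [mem_nearT h.tow] at hi
    refine ⟨lt_of_le_of_lt ?_ (hq i).2.1, (hq i).2.2.trans ?_, hi.1⟩
    · refine Nat.pow_le_pow_right (by norm_num) ?_
      rw [← hadd]
      exact hsm.monotone hi.1
    · exact Nat.pow_le_pow_right (by norm_num) (by omega)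
  have hyy : ∀ i ∈ nearT a k, 4 * u (k + 1) + 4 * e k ≤ 4 * u i + 4 * e i := by
    intro i hi
    rw [mem_nearT h.tow] at hi
    have h1 : u (k + 1) ≤ u i := hmu hi.1
    have h2 : e k ≤ e i := hme hi.1.le
    omega
  have hcard := card_nearT_le a k
  have hcardR : ((nearT a k).card : ℝ) ≤ 3 * (a k : ℝ) := by exact_mod_cast hcard
  have hc2 : (2 * u k + 4 * u (k + 1) + e k - 2) + 2 = 2 * u k + 4 * u (k + 1) + e k := by omega
  have hTc : T.card ≤ 2 ^ (2 * u k + 4 * u (k + 1) + e k - 2) :=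
    card_le_pow T (laT u k) (Fs u k) _ hT.lt hT.rep (e k) hfe (by omega)
  have hTcR : ((T.card : ℕ) : ℝ) ≤ 2 ^ (2 * u k + 4 * u (k + 1) + e k - 2) := by exact_mod_cast hTc
  have hQR : ((q k : ℕ) : ℝ) ≤ 2 ^ (a k + 1) := by exact_mod_cast hqk2
  have hpa : ∀ c : ℕ, c ≤ a k → (c : ℝ) ≤ 2 ^ a k := by
    intro c hc
    have h1 : c ≤ 2 ^ a k := hc.trans Nat.lt_two_pow_self.le
    exact_mod_cast h1
  have ha1000 : 1000 ≤ a k := by omega
  have hx : (2 * (q k : ℝ) ^ 4 + ∑ m ∈ modT a k q, (m : ℝ)) * 2 ^ 13 < 2 ^ (20 * a k) := by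
    have h1 : ∑ m ∈ modT a k q, (m : ℝ) ≤ 2 * ((nearT a k).card * 2 ^ (12 * a k + 4)) := by
      apply sum_modT_le k q (fun m => (m : ℝ)) (fun m => Nat.cast_nonneg m)
      · intro i hi
        push_cast
        have h2 : (q i : ℝ) ≤ 2 ^ (3 * a k + 1) := by exact_mod_cast (hnear i hi).2.1
        calc (q i : ℝ) ^ 2 ≤ (2 ^ (3 * a k + 1)) ^ 2 := by gcongr
          _ = 2 ^ ((3 * a k + 1) * 2) := (pow_mul _ _ _).symm
          _ ≤ 2 ^ (12 * a k + 4) := pow_le_pow_right₀ (by norm_num) (by omega)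
      · intro i hi
        push_cast
        have h2 : (q i : ℝ) ≤ 2 ^ (3 * a k + 1) := by exact_mod_cast (hnear i hi).2.1
        calc (q i : ℝ) ^ 4 ≤ (2 ^ (3 * a k + 1)) ^ 4 := by gcongr
          _ = 2 ^ ((3 * a k + 1) * 4) := (pow_mul _ _ _).symm
          _ ≤ 2 ^ (12 * a k + 4) := pow_le_pow_right₀ (by norm_num) (by omega)
    have h3 : (q k : ℝ) ^ 4 ≤ 2 ^ (12 * a k + 4) := by
      calc (q k : ℝ) ^ 4 ≤ (2 ^ (a k + 1)) ^ 4 := by gcongr
        _ = 2 ^ ((a k + 1) * 4) := (pow_mul _ _ _).symm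
        _ ≤ 2 ^ (12 * a k + 4) := pow_le_pow_right₀ (by norm_num) (by omega)
    have h4 : 2 * (((nearT a k).card : ℝ) * 2 ^ (12 * a k + 4)) ≤
        2 * (3 * 2 ^ a k * 2 ^ (12 * a k + 4)) := by
      have := hpa (a k) le_rfl
      gcongr
      linarith
    have h5 : (2 : ℝ) ^ (20 * a k) = 2 ^ (12 * a k + 4) * 2 ^ a k * 2 ^ (7 * a k - 4) := by
      rw [← pow_add, ← pow_add]
      congr 1
      omega
    have h6 : (2 : ℝ) ^ 20 ≤ 2 ^ (7 * a k - 4) := pow_le_pow_right₀ (by norm_num) (by omega)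
    have h7 : (1 : ℝ) ≤ 2 ^ a k := one_le_pow₀ (by norm_num)
    have h8 : (0 : ℝ) < 2 ^ (12 * a k + 4) := by positivity
    calc (2 * (q k : ℝ) ^ 4 + ∑ m ∈ modT a k q, (m : ℝ)) * 2 ^ 13
        ≤ (2 * 2 ^ (12 * a k + 4) + 2 * (3 * 2 ^ a k * 2 ^ (12 * a k + 4))) * 2 ^ 13 := by
          gcongr; linarith
      _ ≤ (8 * (2 ^ (12 * a k + 4) * 2 ^ a k)) * 2 ^ 13 := by
        gcongr
        nlinarith
      _ < 2 ^ (12 * a k + 4) * 2 ^ a k * 2 ^ (7 * a k - 4) := by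
        have : (0 : ℝ) < 2 ^ (12 * a k + 4) * 2 ^ a k := by positivity
        nlinarith
      _ = _ := h5.symm
  have hY : ∑ m ∈ modT a k q, (m : ℝ) * (Real.exp (AMt u k q m *
      (((20 * a k : ℕ) : ℝ) * (T.card * ((q k : ℝ) ^ 2 / m + 1 / ((2 ^ thT u e k : ℕ) : ℝ)))))
        / AMt u k q m ^ yt u e κ k q m) < 1 / 2 := by
    have hAMpos : ∀ m, 0 < AMt u k q m := by
      intro m
      unfold AMt
      by_cases hm : ∃ i, (fun i => q i ^ 2) i = m
      · obtain ⟨i, rfl⟩ := hm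
        rw [(sqt_injective hsm hq).extend_apply]
        norm_num
      · rw [Function.extend_apply' _ _ _ hm]
        positivity
    have h1 := sum_modT_le (a := a) k q (fun m => (m : ℝ) * (Real.exp (AMt u k q m *
      (((20 * a k : ℕ) : ℝ) * (T.card * ((q k : ℝ) ^ 2 / m + 1 / ((2 ^ thT u e k : ℕ) : ℝ)))))
        / AMt u k q m ^ yt u e κ k q m)) (fun m => by
          have := hAMpos m
          positivity) (1 / 2 ^ (2 * a k)) ?_ ?_
    · refine h1.trans_lt ?_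
      have h2 : (2 : ℝ) ^ (2 * a k) = 2 ^ a k * 2 ^ a k := by rw [← pow_add]; congr 1; ring
      have h3 : 2 * (((nearT a k).card : ℝ) * (1 / 2 ^ (2 * a k))) ≤
          2 * (3 * 2 ^ a k * (1 / 2 ^ (2 * a k))) := by
        have := hpa (a k) le_rfl
        gcongr
        linarith
      have h4 : 2 * (3 * (2 : ℝ) ^ a k * (1 / 2 ^ (2 * a k))) = 6 / 2 ^ a k := by
        rw [h2]
        field_simp
        norm_num
      have h5 : (2 : ℝ) ^ 4 ≤ 2 ^ a k := pow_le_pow_right₀ (by norm_num) (by omega)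
      have h6 : 6 / (2 : ℝ) ^ a k < 1 / 2 := by
        rw [div_lt_div_iff₀ (by positivity) (by norm_num)]
        linarith
      linarith
    · intro i hi
      have e1 : AMt u k q (q i ^ 2) = 2 := (sqt_injective hsm hq).extend_apply _ _ i
      have e2 : yt u e κ k q (q i ^ 2) = 2 ^ (4 * u i + 4 * e i) :=
        (sqt_injective hsm hq).extend_apply _ _ i
      rw [e1, e2]
      obtain ⟨g1, g2, g3⟩ := hnear i hi
      have g1' : (2 : ℝ) ^ (a k + u k) ≤ (q i : ℝ) := by exact_mod_cast g1.le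
      have g2' : (q i : ℝ) ≤ 2 ^ (3 * a k + 1) := by exact_mod_cast g2
      refine hY_sq hL' h20 (q k) _ T.card _ (2 * u k + 4 * u (k + 1) + e k - 2) hc2
        (Nat.cast_nonneg _) hQR ?_ ?_ (Nat.cast_nonneg _) hTcR ?_ _ (hyy i hi)
      · push_cast
        calc (2 : ℝ) ^ (2 * (a k + u k)) = (2 ^ (a k + u k)) ^ 2 := by rw [← pow_mul]; congr 1; ring
          _ ≤ _ := by gcongr
      · push_cast
        calc (q i : ℝ) ^ 2 ≤ (2 ^ (3 * a k + 1)) ^ 2 := by gcongr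
          _ = _ := by rw [← pow_mul]; congr 1; ring
      · rw [hth]
        push_cast
        rfl
    · intro i hi
      have e1 : AMt u k q (q i ^ 4) = 2 ^ u k :=
        Function.extend_apply' _ _ _ (sqt_ne_four hq i)
      have e2 : yt u e κ k q (q i ^ 4) = 8 * κ k :=
        Function.extend_apply' _ _ _ (sqt_ne_four hq i)
      rw [e1, e2]
      obtain ⟨g1, g2, g3⟩ := hnear i hi
      have g1' : (2 : ℝ) ^ (a k + u k) ≤ (q i : ℝ) := by exact_mod_cast g1.le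
      have g2' : (q i : ℝ) ≤ 2 ^ (3 * a k + 1) := by exact_mod_cast g2
      refine tY_four e300 eu ua uu uu' h20 (q k) _ T.card _ (2 * u k + 4 * u (k + 1) + e k - 2)
        hc2 (Nat.cast_nonneg _) hQR ?_ ?_ (Nat.cast_nonneg _) hTcR ?_ huk
      · push_cast
        calc (2 : ℝ) ^ (4 * (a k + u k)) = (2 ^ (a k + u k)) ^ 4 := by rw [← pow_mul]; congr 1; ring
          _ ≤ _ := by gcongr
      · push_cast
        calc (q i : ℝ) ^ 4 ≤ (2 ^ (3 * a k + 1)) ^ 4 := by gcongr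
          _ = _ := by rw [← pow_mul]; congr 1; ring
      · rw [hth]
        push_cast
        rfl
  have hAM : ∀ m ∈ modT a k q, 1 ≤ AMt u k q m := by
    intro m _
    unfold AMt
    by_cases hm : ∃ i, (fun i => q i ^ 2) i = m
    · obtain ⟨i, rfl⟩ := hm
      rw [(sqt_injective hsm hq).extend_apply]
      norm_num
    · rw [Function.extend_apply' _ _ _ hm]
      exact one_le_pow₀ (by norm_num)
  have hMod : ∀ m ∈ modT a k q, 0 < m ∧ Nat.Coprime (q k) m := by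
    intro m hm
    unfold modT at hm
    rw [mem_union, mem_image, mem_image] at hm
    have key : ∀ i ∈ nearT a k, 0 < q i ∧ Nat.Coprime (q k) (q i) := by
      intro i hi
      refine ⟨(hq i).1.pos, ?_⟩
      rw [Nat.coprime_primes (hq k).1 (hq i).1]
      exact ((qt_strictMono hsm hq) (hnear i hi).2.2).ne
    rcases hm with ⟨i, hi, rfl⟩ | ⟨i, hi, rfl⟩
    · exact ⟨pow_pos (key i hi).1 _, (key i hi).2.pow_right _⟩
    · exact ⟨pow_pos (key i hi).1 _, (key i hi).2.pow_right _⟩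
  have hTm : ∀ m ∈ modT a k q, ∀ t ∈ T, t < m := by
    intro m hm t ht
    unfold modT at hm
    rw [mem_union, mem_image, mem_image] at hm
    have key : ∀ i ∈ nearT a k, 2 ^ laT u k < q i ^ 2 := by
      intro i hi
      calc 2 ^ laT u k ≤ 2 ^ ((a k + u k) * 2) := Nat.pow_le_pow_right (by norm_num) (by omega)
        _ = (2 ^ (a k + u k)) ^ 2 := pow_mul _ _ _
        _ < q i ^ 2 := Nat.pow_lt_pow_left (hnear i hi).1 (by norm_num)
    have h2 := hT.lt t ht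
    rcases hm with ⟨i, hi, rfl⟩ | ⟨i, hi, rfl⟩
    · exact h2.trans (key i hi)
    · exact h2.trans ((key i hi).trans_le (Nat.pow_le_pow_right (hq i).1.pos (by norm_num)))
  have pH : ∀ r, (O.filter (fun o => o % (q k) ^ 2 = r)).card ≤ 2 ^ (4 * u k + 8 * e k) := by
    intro r
    refine (hO.c2 k le_rfl r).trans ?_
    have g1 := h.tow.le_a k
    have g2 : k + 1 ≤ 2 ^ e k := by omega
    have g4 : 2 ^ 13 ≤ 2 ^ e k := Nat.pow_le_pow_right (by norm_num) (by omega)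
    calc (k + 1) * (8192 * 2 ^ (4 * u k + 4 * e k))
        = (k + 1) * 2 ^ 13 * 2 ^ (4 * u k + 4 * e k) := by ring
      _ ≤ (2 ^ e k * 2 ^ e k) * 2 ^ (4 * u k + 4 * e k) :=
          Nat.mul_le_mul_right _ (Nat.mul_le_mul g2 g4)
      _ = 2 ^ (e k + e k + (4 * u k + 4 * e k)) := by rw [← pow_add, ← pow_add]
      _ ≤ _ := Nat.pow_le_pow_right (by norm_num) (by omega)
  have hqpos : 0 < q k ^ 4 := pow_pos (hq k).1.pos 4
  have gq2 : 2 ^ (4 * a k) ≤ q k ^ 4 := by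
    calc 2 ^ (4 * a k) = (2 ^ a k) ^ 4 := by rw [← pow_mul]; congr 1; ring
      _ ≤ q k ^ 4 := Nat.pow_le_pow_left hqk1.le 4
  have hOS : ∀ o ∈ O, o < q k ^ 4 * 2 ^ thT u e k := by
    intro o ho
    refine (hO.bd o ho).trans_le ?_
    calc 2 ^ (4 * a k + 8 * u k) ≤ 2 ^ (4 * a k + thT u e k) :=
          Nat.pow_le_pow_right (by norm_num) (by omega)
      _ = 2 ^ (4 * a k) * 2 ^ thT u e k := pow_add _ _ _
      _ ≤ _ := Nat.mul_le_mul_right _ gq2
  have hcr := fun n hn => Pool.Agent.Helper39.FM.cross_numeric (a := a k) (u := u k) (u' := u (k + 1)) (e := e k)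
    (w := w k) (F := Fs u k) (q := q k) T e300 eu ua uu h20 (by have := h.hw k; omega) hqk1 hqk2
    hT.wn hT.rep hfe (2 ^ (4 * (a k + u k) + 8 * u (k + 1) + 1)) rfl n hn
  choose! W hW1 hW2 using hcr
  have hthle : thT u e k ≤ a k := by omega
  have pS := tSS_bound (a := a k) (th := thT u e k) (q := q k) (by omega) hthle hqk2
  have pL := tL_bound (a := a k) (th := thT u e k) (la := laT u k) (q := q k) (by omega)
    (by omega) (by omega) hqk2
  obtain ⟨A, A', hA0, hA1, hA2', hA2, hA3, hA3', hA4, hA5, hs, hl⟩ :=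
    Pool.Agent.Helper38.FMR.world_exists3 (q := q k) hq16 T O T' hT.sub (2 ^ thT u e k) (2 ^ laT u k)
    (2 ^ (4 * u k + 8 * e k)) (Dk κ k) (20 * a k)
    (2 ^ (4 * (a k + u k) + 8 * u (k + 1) + 1)) (2 ^ (2 * a k - thT u e k + 7)) (6 * a k)
    (fun n => tD (a k) (e k) (dW a u e k n)) W (by positivity) (modT a k q) hMod hTm
    hT.lt hOS pH (hO.c4 k le_rfl) hx hW1 (fun n => 2 ^ (e k + dW a u e k n / 2))
    (fun n _ => one_le_pow₀ (by norm_num)) hW2 (AMt u k q) hAM (yt u e κ k q) hY 2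
    (by norm_num) pS pL
  have gq1 : q k ^ 4 ≤ 2 ^ (4 * a k + 4) := by
    calc q k ^ 4 ≤ (2 ^ (a k + 1)) ^ 4 := Nat.pow_le_pow_left hqk2 4
      _ = _ := by rw [← pow_mul]; congr 1; ring
  have gY : 514 + 2 * 2 ^ thT u e k + 2 ^ laT u k ≤ 2 ^ (laT u k + 1) := by
    have g3 : 2 ^ 10 * 2 ^ thT u e k ≤ 2 ^ laT u k := by
      rw [← pow_add]
      exact Nat.pow_le_pow_right (by norm_num) (by omega)
    have g4 : 1 ≤ 2 ^ thT u e k := Nat.one_le_two_pow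
    rw [pow_succ]
    omega
  have hrng : ∀ b ∈ A, 2 ^ (4 * a k + thT u e k) ≤ b ∧
      b < 2 ^ (4 * a (k + 1) + 8 * u (k + 1)) := by
    intro b hb
    obtain ⟨h1, h2⟩ := hA1 b hb
    constructor
    · refine le_trans ?_ h1
      rw [pow_add]
      exact Nat.mul_le_mul_right _ gq2
    · refine h2.trans_le ?_
      calc q k ^ 4 * (514 + 2 * 2 ^ thT u e k + 2 ^ laT u k)
          ≤ 2 ^ (4 * a k + 4) * 2 ^ (laT u k + 1) := Nat.mul_le_mul gq1 gY
        _ = 2 ^ (4 * a (k + 1) + 8 * u (k + 1)) := by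
          rw [← pow_add]
          congr 1
          omega
  -- the blocks of the top parts
  have gS9 : 2 ^ 9 ≤ 2 ^ thT u e k := Nat.pow_le_pow_right (by norm_num) (by omega)
  have gdiv : ∀ n, 2 ^ (4 * a k + thT u e k + 8) ≤ n → 2 ^ thT u e k * 16 ≤ n / q k ^ 4 := by
    intro n hn
    rw [Nat.le_div_iff_mul_le hqpos]
    calc 2 ^ thT u e k * 16 * q k ^ 4 ≤ 2 ^ thT u e k * 16 * 2 ^ (4 * a k + 4) :=
          Nat.mul_le_mul_left _ gq1
      _ = 2 ^ thT u e k * 2 ^ 4 * 2 ^ (4 * a k + 4) := rfl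
      _ = 2 ^ (4 * a k + thT u e k + 8) := by
        rw [← pow_add, ← pow_add]
        congr 1
        ring
      _ ≤ n := hn
  have hblk : ∀ j, 4 * a k + thT u e k + 8 ≤ j → j + 1 ≤ 4 * a k + laT u k →
      ∀ n, 2 ^ j ≤ n → n < 2 ^ (j + 1) →
      ∀ m, n / q k ^ 4 ≤ m + 1028 + 4 * 2 ^ thT u e k → m ≤ n / q k ^ 4 →
        ∃ l, l ≤ 5 ∧ 1 ≤ j - 4 * a k - l ∧ j - 4 * a k - l < laT u k ∧
          2 ^ (j - 4 * a k - l) ≤ m ∧ m < 2 ^ (j - 4 * a k - l + 1) := by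
    intro j hj1 hj2 n hn1 hn2 m hm1 hm2
    have g2 : 2 ^ (j - 4 * a k - 4) ≤ n / q k ^ 4 := by
      rw [Nat.le_div_iff_mul_le hqpos]
      calc 2 ^ (j - 4 * a k - 4) * q k ^ 4 ≤ 2 ^ (j - 4 * a k - 4) * 2 ^ (4 * a k + 4) :=
            Nat.mul_le_mul_left _ gq1
        _ = 2 ^ j := by
          rw [← pow_add]
          congr 1
          omega
        _ ≤ n := hn1
    have g3 : n / q k ^ 4 < 2 ^ (j + 1 - 4 * a k) := by
      rw [Nat.div_lt_iff_lt_mul hqpos]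
      calc n < 2 ^ (j + 1) := hn2
        _ = 2 ^ (j + 1 - 4 * a k) * 2 ^ (4 * a k) := by
          rw [← pow_add]
          congr 1
          omega
        _ ≤ _ := Nat.mul_le_mul_left _ gq2
    have g5 : 2 ^ (thT u e k + 3) ≤ 2 ^ (j - 4 * a k - 5) :=
      Nat.pow_le_pow_right (by norm_num) (by omega)
    have g6 : 2 ^ (j - 4 * a k - 4) = 2 ^ (j - 4 * a k - 5) * 2 := by
      rw [← pow_succ]
      congr 1
      omega
    have g7 : 2 ^ (thT u e k + 3) = 2 ^ thT u e k * 8 := by rw [pow_add]; norm_num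
    have g9 : 2 ^ (j - 4 * a k - 5) ≤ m := by omega
    have g10 : m < 2 ^ (j + 1 - 4 * a k) := lt_of_le_of_lt hm2 g3
    have hmpos : m ≠ 0 := by
      have : 0 < 2 ^ (j - 4 * a k - 5) := by positivity
      omega
    have hlog1 : 2 ^ Nat.log 2 m ≤ m := Nat.pow_log_le_self 2 hmpos
    have hlog2 : m < 2 ^ (Nat.log 2 m + 1) := Nat.lt_pow_succ_log_self (by norm_num) m
    have hlog3 : j - 4 * a k - 5 ≤ Nat.log 2 m := Nat.le_log_of_pow_le (by norm_num) g9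
    have hlog4 : Nat.log 2 m < j + 1 - 4 * a k := Nat.log_lt_of_lt_pow hmpos g10
    have hi : j - 4 * a k - (j - 4 * a k - Nat.log 2 m) = Nat.log 2 m := by omega
    refine ⟨j - 4 * a k - Nat.log 2 m, by omega, ?_⟩
    rw [hi]
    exact ⟨by omega, by omega, hlog1, hlog2⟩
  refine ⟨A, A', ⟨hA0, hrng, ?_, ?_, ?_, ?_, ?_, ?_, ?_, ?_, ?_, ?_⟩⟩
  · exact fun n => hA2 n (Fs u k) fun m _ _ => hT.rep m
  · exact fun i n => hA2' i (f i) (hT.rep' i) n
  · intro n hn1 hn2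
    have g2 := gdiv n hn1
    have g3 : n / q k ^ 4 < 2 ^ laT u k := by
      rw [Nat.div_lt_iff_lt_mul hqpos]
      calc n < 2 ^ (4 * a k + laT u k) := hn2
        _ = 2 ^ laT u k * 2 ^ (4 * a k) := by
          rw [← pow_add]
          congr 1
          omega
        _ ≤ _ := Nat.mul_le_mul_left _ gq2
    exact hA3 n (c k) (by omega) fun m hm1 hm => hT.cov m (by omega) (lt_of_le_of_lt hm g3)
  · intro j G hj1 hj2 hc n hn1 hn2
    refine hA2 n G fun m hm1 hm2 => ?_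
    obtain ⟨l, hl5, -, -, hl1, hl2⟩ := hblk j hj1 hj2 n hn1 hn2 m hm1 hm2
    exact (hT.prof _ m hl1 hl2).trans (hc l hl5)
  · intro i j hj1 hj2 hc n hn1 hn2
    have g2 := gdiv n (le_trans (Nat.pow_le_pow_right (by norm_num) hj1) hn1)
    obtain ⟨x, hx, y, hy, hxy⟩ := hA3' i n (c k) (by omega) fun m hm1 hm2 => by
      obtain ⟨l, hl5, hl3, hl4, hl1, hl2⟩ := hblk j hj1 hj2 n hn1 hn2 m (by omega) hm2
      obtain ⟨x, hx, y, hy, hxy⟩ := hT.good i _ hl3 hl4 (hc l hl5) m hl1 hl2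
      exact ⟨x, by exact_mod_cast hx, y, by exact_mod_cast hy, hxy⟩
    exact ⟨x, by exact_mod_cast hx, y, by exact_mod_cast hy, hxy⟩
  · intro i hi1 hi2 r
    have hmem : q i ^ 2 ∈ modT a k q := by
      unfold modT
      rw [mem_union, mem_image]
      exact Or.inl ⟨i, (mem_nearT h.tow).mpr ⟨hi1, hi2⟩, rfl⟩
    have e2 : yt u e κ k q (q i ^ 2) = 2 ^ (4 * u i + 4 * e i) :=
      (sqt_injective hsm hq).extend_apply _ _ i
    have := hA4 _ hmem r
    rwa [e2] at this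
  · intro i hi1 hi2 r
    have hmem : q i ^ 4 ∈ modT a k q := by
      unfold modT
      rw [mem_union, mem_image, mem_image]
      exact Or.inr ⟨i, (mem_nearT h.tow).mpr ⟨hi1, hi2⟩, rfl⟩
    have e2 : yt u e κ k q (q i ^ 4) = 8 * κ k :=
      Function.extend_apply' _ _ _ (sqt_ne_four hq i)
    have := hA4 _ hmem r
    rwa [e2] at this
  · intro n
    rcases lt_or_ge n (2 ^ (4 * (a k + u k) + 8 * u (k + 1) + 1)) with hn | hn
    · exact hA5 n hn
    · have : crossF A O n = ∅ := by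
        unfold crossF
        rw [filter_eq_empty_iff]
        intro z hz hzn
        rw [mem_product] at hz
        have g1 := (hrng _ hz.1).2
        have g2 := hO.bd _ hz.2
        have g3 : 2 ^ (4 * a k + 8 * u k) ≤ 2 ^ (4 * (a k + u k) + 8 * u (k + 1)) :=
          Nat.pow_le_pow_right (by norm_num) (by omega)
        rw [hadd] at g1
        have g5 : 2 ^ (4 * (a k + u k) + 8 * u (k + 1) + 1) =
            2 ^ (4 * (a k + u k) + 8 * u (k + 1)) * 2 := pow_succ _ _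
        omega
      rw [this, card_empty]
      exact Nat.zero_le _
  · refine Pool.Agent.Helper65.FM.wn_of3 (a := a k) (u := u k) (u' := u (k + 1)) (e := e k) (th := thT u e k)
      (w := w k) (F := Fs u k) (q := q k) T A e300 eu ua uu rfl hqk1 hqk2 hT.wn hT.rep (h.wF k)
      ?_ hs hl
    intro b hb
    have := hrng b hb
    rwa [hadd] at this
  · intro y h' h1 h2
    exact Pool.Agent.Helper57.FB.mid_of T A hT.rep (by omega) hqk1
      (fun y h W hz => hl y h W fun z _ => hz z) y h' h1 h2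

end Pool.Agent.Helper67.FMR
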