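import Pool.Agent.Helper53.FM.Defs
import Pool.Agent.Helper53.WR.Tower
import Pool.Agent.Helper53.FM.Rl.C2

/-!
# FM-C3: the union of all stages of a tower
-/

set_option autoImplicit false

namespace Pool.Agent.Helper33.FMR

open Finset Filter
open Pool.Agent.Helper53.WR
open Pool.Agent.Helper48.FB (win crossF Cs WinLe Fs Dk LR zR dens)
open Pool.Agent.Helper53.FM
open Pool.Agent.Helper52.FMR (mtower_pieces)

lemma winLe_mono {A A' : Finset ℕ} {W : ℕ} (hA : A' ⊆ A) (h : WinLe A W) : WinLe A' W := by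
  intro y z
  refine le_trans (Nat.mul_le_mul_right _ (card_le_card ?_)) (h y z)
  unfold win
  exact filter_subset_filter _ hA

lemma rep_le_repF {A : Set ℕ} {F : Finset ℕ} {n : ℕ} (h : ∀ x ∈ A, x ≤ n → x ∈ F) :
    rep A n ≤ repF F n := by
  unfold rep repF
  rw [← Set.ncard_coe_finset]
  refine Set.ncard_le_ncard ?_ (Finset.finite_toSet _)
  rintro ⟨x, y⟩ ⟨h1, h2, h3⟩
  simp only at h1 h2 h3
  rw [mem_coe, mem_filter, mem_product]
  exact ⟨⟨h x h1 (by omega), h y h2 (by omega)⟩, h3⟩

lemma crossF_swap_card (X Y : Finset ℕ) (n : ℕ) : (crossF Y X n).card ≤ (crossF X Y n).card := by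
  classical
  have : crossF Y X n ⊆ (crossF X Y n).image Prod.swap := by
    rintro ⟨x, y⟩ hxy
    unfold crossF at hxy
    rw [mem_filter, mem_product] at hxy
    rw [mem_image]
    refine ⟨(y, x), ?_, rfl⟩
    unfold crossF
    rw [mem_filter, mem_product]
    exact ⟨⟨hxy.1.2, hxy.1.1⟩, by have := hxy.2; simp only at this ⊢; omega⟩
  exact (card_le_card this).trans card_image_le

/-- Representations by `O ∪ A ∪ R` if no number is a sum of two elements of `O ∪ R`. -/
lemma repF_union_le {O A R : Finset ℕ} {n : ℕ}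
    (hno : ∀ x ∈ O ∪ R, ∀ y ∈ O ∪ R, x + y ≠ n) :
    repF (O ∪ A ∪ R) n ≤ repF A n + 2 * (crossF A O n).card + 2 * (crossF R A n).card := by
  classical
  have hsub : ((O ∪ A ∪ R) ×ˢ (O ∪ A ∪ R)).filter (fun p => p.1 + p.2 = n) ⊆
      (A ×ˢ A).filter (fun p => p.1 + p.2 = n) ∪ (crossF A O n ∪ crossF O A n) ∪
        (crossF R A n ∪ crossF A R n) := by
    rintro ⟨x, y⟩ hp
    rw [mem_filter, mem_product] at hp
    obtain ⟨⟨hx, hy⟩, hxy⟩ := hp
    simp only at hx hy hxy
    have hx' : x ∈ A ∨ x ∈ O ∨ x ∈ R := by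
      rw [mem_union, mem_union] at hx
      tauto
    have hy' : y ∈ A ∨ y ∈ O ∨ y ∈ R := by
      rw [mem_union, mem_union] at hy
      tauto
    have hA : ∀ X Y : Finset ℕ, x ∈ X → y ∈ Y → (x, y) ∈ crossF X Y n := by
      intro X Y h1 h2
      unfold crossF
      rw [mem_filter, mem_product]
      exact ⟨⟨h1, h2⟩, hxy⟩
    rw [mem_union, mem_union, mem_union, mem_union]
    rcases hx' with hx' | hx'
    · rcases hy' with hy' | hy' | hy'
      · left; left
        rw [mem_filter, mem_product]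
        exact ⟨⟨hx', hy'⟩, hxy⟩
      · left; right; left
        exact hA _ _ hx' hy'
      · right; right
        exact hA _ _ hx' hy'
    · rcases hy' with hy' | hy'
      · rcases hx' with hx' | hx'
        · left; right; right
          exact hA _ _ hx' hy'
        · right; left
          exact hA _ _ hx' hy'
      · exact absurd hxy (hno x (mem_union.mpr hx') y (mem_union.mpr hy'))
  have h1 := card_le_card hsub
  have h2 := card_union_le ((A ×ˢ A).filter (fun p => p.1 + p.2 = n) ∪
    (crossF A O n ∪ crossF O A n)) (crossF R A n ∪ crossF A R n)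
  have h3 := card_union_le ((A ×ˢ A).filter (fun p => p.1 + p.2 = n))
    (crossF A O n ∪ crossF O A n)
  have h4 := card_union_le (crossF A O n) (crossF O A n)
  have h5 := card_union_le (crossF R A n) (crossF A R n)
  have h6 := crossF_swap_card A O n
  have h7 := crossF_swap_card R A n
  unfold repF
  omega

lemma zR_mono {a u e t κ f : ℕ → ℕ} (h : Tow a u e t κ f) : Monotone (fun k : ℕ => zR a u k) := by
  intro x y hxy
  have h1 := h.strictMono.monotone hxy
  have h2 := h.mono_u hxy
  simp only [zR]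
  omega

lemma repF_mono {A B : Finset ℕ} (h : A ⊆ B) (n : ℕ) : repF A n ≤ repF B n := by
  unfold repF
  exact card_le_card (filter_subset_filter _ (product_subset_product h h))

lemma crossF_mono {A B O : Finset ℕ} (h : A ⊆ B) (n : ℕ) :
    (crossF A O n).card ≤ (crossF B O n).card := by
  refine card_le_card ?_
  unfold crossF
  exact filter_subset_filter _ (product_subset_product h subset_rfl)

lemma tD_anti (a e : ℕ) {d d' : ℕ} (he : 0 < e) (h : d ≤ d') : tD a e d' ≤ tD a e d := by
  unfold tD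
  have : 44 * a / (e + d') ≤ 44 * a / (e + d) := Nat.div_le_div_left (by omega) (by omega)
  omega

/-- FM-C3 (the union of all stages; uses C2). -/
theorem mtower {a u e κ w c : ℕ → ℕ} (h : MTow a u e κ w c) (f g : ℕ → ℕ → ℕ)
    (T : ℕ → Finset ℕ) (T' B : ℕ → ℕ → Finset ℕ)
    (hT : ∀ k, MTop (laT u k) (Fs u k) (w k) (c k) (f k) (g k) (T k) (T' k) (B k)) :
    ∃ A : Set ℕ, (0 ∈ A ∧ 1 ∈ A) ∧
      (∀ k n, 2 ≤ n → n < 2 ^ zR a u k →
        ∃ x ∈ A, ∃ y ∈ A, x + y = n ∧ n ≤ 2 * c k * x ∧ n ≤ 2 * c k * y) ∧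
      (∀ k n, n < 2 ^ zR a u k → rep A n ≤ 4 * Cs * a k) ∧
      (∀ k j G, 4 * a k + thT u e k + 128 * e k ≤ j → j + 1 ≤ zR a u (k + 1) →
        (∀ l, l ≤ 5 → g k (j - 4 * a k - l) ≤ G) → ∀ n, 2 ^ j ≤ n → n < 2 ^ (j + 1) →
          rep A n ≤ 4096 ^ 2 * 2592 * G
            + 2 * (4096 * (tD (a k) (e k) (j - (4 * a k + thT u e k)) * Dk κ k))
            + 2 * tD (a k) (e k) (j - (4 * a k + thT u e k + 128 * e k))) ∧
      (∀ k J, J ≤ zR a u (k + 1) →
        WinLe (Pool.Agent.Helper48.WR.cut A J) ((k + 2) * 2 ^ (wA a w (k + 1) + 1))) ∧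
      ∀ r v : ℕ → ℕ, ∃ A' : Set ℕ, A' ⊆ A ∧
        (∀ n, n < 2 ^ (4 * a 0 + thT u e 0) → rep A' n = 0) ∧
        (∀ k n, 2 ^ (4 * a k + thT u e k) ≤ n → n < 2 ^ (4 * a (k + 1) + thT u e (k + 1)) →
          rep A' n ≤ 4096 ^ 2 * 2592 * f k (r k)
            + 2 * (4096 * (tD (a k) (e k) (v k) * Dk κ k))) ∧
        ∀ k j, 4 * a k + thT u e k + 9 + v k + Nat.log 2 (c k) ≤ j → j + 1 ≤ zR a u (k + 1) →
          (∀ l, l ≤ 5 → j - 4 * a k - l ∉ B k (r k)) → BCov A' (2 * c k) j := by
  classical
  obtain ⟨q, S, Ak, Rk, Ak', hq, hS1, hinv, hFW, hFR⟩ := mtower_pieces h f g T T' B hT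
  have hmonoS : ∀ s s', s ≤ s' → S s ⊆ S s' := by
    intro s s' hs
    induction s' with
    | zero =>
      have : s = 0 := by omega
      rw [this]
    | succ s' ih =>
      rcases Nat.lt_or_eq_of_le hs with h1 | h1
      · rw [hS1]
        exact ((ih (by omega)).trans subset_union_left).trans subset_union_left
      · rw [h1]
  -- elements of a late stage are large
  have hlarge : ∀ s s', s ≤ s' → ∀ x ∈ S s', x ∈ S s ∨ 2 ^ zR a u s ≤ x := by
    intro s s' hs
    induction s' with
    | zero =>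
      have : s = 0 := by omega
      rw [this]
      exact fun x hx => Or.inl hx
    | succ s' ih =>
      rcases Nat.lt_or_eq_of_le hs with h1 | h1
      · intro x hx
        rw [hS1, mem_union, mem_union] at hx
        have hz : 2 ^ zR a u s ≤ 2 ^ zR a u s' :=
          Nat.pow_le_pow_right (by norm_num) (zR_mono h.tow (show s ≤ s' by omega))
        rcases hx with (hx | hx) | hx
        · exact ih (by omega) x hx
        · right
          refine hz.trans (le_trans (Nat.pow_le_pow_right (by norm_num) ?_) ((hFW s').rng x hx).1)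
          unfold zR thT
          omega
        · right
          exact hz.trans ((hFR s').rng x hx).1
      · rw [h1]
        exact fun x hx => Or.inl hx
  let A : Set ℕ := {x | ∃ s, x ∈ S s}
  have hAlow : ∀ s, ∀ x ∈ A, x < 2 ^ zR a u s → x ∈ S s := by
    rintro s x ⟨s', hs'⟩ hx
    rcases le_total s s' with h1 | h1
    · rcases hlarge s s' h1 x hs' with h2 | h2
      · exact h2
      · omega
    · exact hmonoS s' s h1 hs'
  -- no sums of two old elements
  have hOO : ∀ s n, 2 ^ (4 * a s + thT u e s) ≤ n → ∀ x ∈ S s, ∀ y ∈ S s, x + y ≠ n := by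
    intro s n hn x hx y hy hxy
    have h1 := (hinv s).bd x hx
    have h2 := (hinv s).bd y hy
    have h3 : 4 * a s + 8 * u s + 1 ≤ 4 * a s + thT u e s := by
      have := h.tow.e300 s
      unfold thT
      omega
    have h4 : (2 : ℕ) ^ (4 * a s + 8 * u s + 1) ≤ 2 ^ (4 * a s + thT u e s) :=
      Nat.pow_le_pow_right (by norm_num) h3
    rw [pow_succ] at h4
    omega
  have hAkS : ∀ k, Ak k ⊆ S (k + 1) := by
    intro k
    rw [hS1]
    exact subset_union_right.trans subset_union_left
  refine ⟨A, ?_, ?_, ?_, ?_, ?_, ?_⟩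
  · exact ⟨⟨0, (hinv 0).zo.1⟩, ⟨0, (hinv 0).zo.2⟩⟩
  · intro k n hn2 hn
    have h1 : n < 2 ^ (4 * a k + 8 * u k - 8) := by
      refine lt_of_lt_of_le hn (Nat.pow_le_pow_right (by norm_num) ?_)
      unfold zR
      omega
    obtain ⟨x, hx, y, hy, hxy⟩ := (hinv k).cov n hn2 h1
    exact ⟨x, ⟨k, hx⟩, y, ⟨k, hy⟩, hxy⟩
  · intro k n hn
    refine le_trans (rep_le_repF (F := S k) ?_) ((hinv k).rep n)
    intro x hx hxn
    exact hAlow k x hx (by omega)
  · intro k j G hj1 hj2 hG n hn1 hn2
    have he := h.tow.e300 k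
    have hstep := h.tow.step k
    have hprof := (hFW k).prof j G (by omega) (by
      unfold zR at hj2
      unfold laT
      omega) hG n hn1 hn2
    have hn3 : (2 : ℕ) ^ (j + 1) ≤ 2 ^ zR a u (k + 1) := Nat.pow_le_pow_right (by norm_num) hj2
    have h1 : rep A n ≤ repF (S k ∪ Ak k ∪ Rk k) n := by
      refine rep_le_repF ?_
      intro x hx hxn
      have h2 := hAlow (k + 1) x hx (by omega)
      rw [hS1] at h2
      exact h2
    have hn4 : (2 : ℕ) ^ (4 * a k + thT u e k + 128 * e k) ≤ 2 ^ j :=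
      Nat.pow_le_pow_right (by norm_num) hj1
    have hn5 : (2 : ℕ) ^ (4 * a k + thT u e k + 13) ≤ 2 ^ j :=
      Nat.pow_le_pow_right (by norm_num) (by omega)
    have hsmall : ∀ x ∈ S k ∪ Rk k, x < 2 ^ (4 * a k + thT u e k + 12) := by
      intro x hx
      rcases mem_union.mp hx with hx | hx
      · refine lt_of_lt_of_le ((hinv k).bd x hx) (Nat.pow_le_pow_right (by norm_num) ?_)
        unfold thT
        omega
      · exact ((hFR k).rng x hx).2
    have h2 := repF_union_le (O := S k) (A := Ak k) (R := Rk k) (n := n) (by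
      intro x hx y hy hxy
      have h3 := hsmall x hx
      have h4 := hsmall y hy
      have h5 : (2 : ℕ) ^ (4 * a k + thT u e k + 13) = 2 ^ (4 * a k + thT u e k + 12) * 2 :=
        pow_succ _ _
      omega)
    have hlog : Nat.log 2 n = j := by
      rw [Nat.log_eq_iff (Or.inr ⟨by norm_num, by
        have : 0 < 2 ^ j := by positivity
        omega⟩)]
      exact ⟨hn1, hn2⟩
    have h5 := (hFW k).cross n
    have h7 := (hFR k).crossL n (by omega)
    unfold dW at h5
    unfold dR at h7
    rw [hlog] at h5 h7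
    omega
  · intro k J hJ
    have h1 := (hinv (k + 1)).wn
    refine winLe_mono (A := S (k + 1)) ?_ h1
    intro x hx
    rw [Pool.Agent.Helper48.WR.mem_cut] at hx
    have h2 : (2 : ℕ) ^ J ≤ 2 ^ zR a u (k + 1) := Nat.pow_le_pow_right (by norm_num) hJ
    exact hAlow (k + 1) x hx.2 (by omega)
  · intro r v
    let P : ℕ → Finset ℕ := fun k =>
      (Ak' k (r k)).filter (fun x => 2 ^ (4 * a k + thT u e k + v k) ≤ x)
    let A' : Set ℕ := {x | ∃ k, x ∈ P k}
    have hPA : ∀ k, P k ⊆ Ak k := fun k => (filter_subset _ _).trans ((hFW k).sub (r k))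
    have hP1 : ∀ k, ∀ x ∈ P k, 2 ^ (4 * a k + thT u e k + v k) ≤ x := by
      intro k x hx
      exact (mem_filter.mp hx).2
    have hlt : ∀ k, ∀ x ∈ P k, 2 ^ (4 * a k + thT u e k) ≤ x :=
      fun k x hx => ((hFW k).rng x (hPA k hx)).1
    -- elements of `A'` below the next world
    have hA'mem : ∀ k, ∀ x ∈ A', x < 2 ^ (4 * a (k + 1) + thT u e (k + 1)) →
        x ∈ S k ∨ x ∈ P k := by
      rintro k x ⟨s, hs⟩ hx
      rcases Nat.lt_trichotomy s k with h1 | h1 | h1
      · left
        exact hmonoS (s + 1) k h1 (hAkS s (hPA s hs))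
      · right
        rw [← h1]
        exact hs
      · exfalso
        have h2 := hlt s x hs
        have h3 : (2 : ℕ) ^ (4 * a (k + 1) + thT u e (k + 1)) ≤ 2 ^ (4 * a s + thT u e s) :=
          Nat.pow_le_pow_right (by norm_num) (texpo_mono h.tow (show k + 1 ≤ s by omega))
        omega
    refine ⟨A', ?_, ?_, ?_, ?_⟩
    · rintro x ⟨k, hk⟩
      exact ⟨k + 1, hAkS k (hPA k hk)⟩
    · intro n hn
      unfold rep
      have : ({p : ℕ × ℕ | p.1 ∈ A' ∧ p.2 ∈ A' ∧ p.1 + p.2 = n} : Set (ℕ × ℕ)) = ∅ := by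
        rw [Set.eq_empty_iff_forall_notMem]
        rintro ⟨x, y⟩ ⟨h1, h2, h3⟩
        simp only at h1 h3
        obtain ⟨s, hs⟩ := h1
        have h4 := hlt s x hs
        have h5 : (2 : ℕ) ^ (4 * a 0 + thT u e 0) ≤ 2 ^ (4 * a s + thT u e s) :=
          Nat.pow_le_pow_right (by norm_num) (texpo_mono h.tow (show 0 ≤ s by omega))
        omega
      rw [this, Set.ncard_empty]
    · intro k n hn1 hn2
      have h1 : rep A' n ≤ repF (S k ∪ P k ∪ ∅) n := by
        refine rep_le_repF ?_
        intro x hx hxn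
        rw [union_empty, mem_union]
        exact hA'mem k x hx (by omega)
      have h2 := repF_union_le (O := S k) (A := P k) (R := ∅) (n := n) (by
        intro x hx y hy
        rw [union_empty] at hx hy
        exact hOO k n hn1 x hx y hy)
      have h3 : (crossF ∅ (P k) n).card = 0 := by
        unfold crossF
        simp
      have h6 : repF (P k) n ≤ 4096 ^ 2 * 2592 * f k (r k) :=
        (repF_mono (filter_subset _ _) n).trans ((hFW k).self' (r k) n)
      have h7 : (crossF (P k) (S k) n).card ≤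
          4096 * (tD (a k) (e k) (v k) * Dk κ k) := by
        rcases (crossF (P k) (S k) n).eq_empty_or_nonempty with h8 | ⟨⟨x, y⟩, h8⟩
        · rw [h8]
          simp
        · have h9 : x ∈ P k ∧ x + y = n := by
            unfold crossF at h8
            rw [mem_filter, mem_product] at h8
            exact ⟨h8.1.1, h8.2⟩
          have h10 := hP1 k x h9.1
          have h11 : v k ≤ dW a u e k n := by
            unfold dW
            have : 4 * a k + thT u e k + v k ≤ Nat.log 2 n := by
              refine Nat.le_log_of_pow_le (by norm_num) ?_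
              omega
            omega
          refine (crossF_mono (hPA k) n).trans (((hFW k).cross n).trans ?_)
          gcongr
          exact tD_anti _ _ (by have := h.tow.e300 k; omega) h11
      omega
    · intro k j hj1 hj2 hB n hn1 hn2
      have hstep := h.tow.step k
      obtain ⟨x, hx, y, hy, hxy, h1, h2⟩ := (hFW k).good (r k) j (by omega) (by
        unfold zR at hj2
        unfold laT
        omega) hB n hn1 hn2
      have hc : c k < 2 ^ (Nat.log 2 (c k) + 1) := Nat.lt_pow_succ_log_self (by norm_num) _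
      have hj3 : (2 : ℕ) ^ (4 * a k + thT u e k + v k) * 2 ^ (Nat.log 2 (c k) + 2) ≤ 2 ^ j := by
        rw [← pow_add]
        exact Nat.pow_le_pow_right (by norm_num) (by omega)
      have hbig : ∀ z, n ≤ 2 * c k * z → 2 ^ (4 * a k + thT u e k + v k) ≤ z := by
        intro z hz
        by_contra hcon
        push Not at hcon
        have h3 : 2 * c k * z ≤ 2 * c k * 2 ^ (4 * a k + thT u e k + v k) :=
          Nat.mul_le_mul_left _ hcon.le
        have hcp : 0 < 2 ^ (4 * a k + thT u e k + v k) := by positivity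
        have h4 : 2 * c k * 2 ^ (4 * a k + thT u e k + v k) <
            2 ^ (Nat.log 2 (c k) + 2) * 2 ^ (4 * a k + thT u e k + v k) := by
          apply Nat.mul_lt_mul_of_pos_right _ hcp
          rw [pow_succ (n := Nat.log 2 (c k) + 1)]
          omega
        have h5 : 2 ^ (Nat.log 2 (c k) + 2) * 2 ^ (4 * a k + thT u e k + v k) =
          2 ^ (4 * a k + thT u e k + v k) * 2 ^ (Nat.log 2 (c k) + 2) := mul_comm _ _
        omega
      exact ⟨x, ⟨k, mem_filter.mpr ⟨hx, hbig x h1⟩⟩, y, ⟨k, mem_filter.mpr ⟨hy, hbig y h2⟩⟩,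
        hxy, h1, h2⟩

end Pool.Agent.Helper33.FMR
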