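import Pool.Agent.Helper53.FM.Defs
import Pool.Agent.Helper53.WR.Tower
import Pool.Agent.Helper12.FM.A2D0
import Pool.Agent.Helper53.FM.Rl.A4C0
import Pool.Agent.Helper48.FM.LevSeq
import Pool.Agent.Helper48.WR.FinStep

/-!
# Project FM, D1, part 2: one level
-/

set_option autoImplicit false

namespace Pool.Agent.Helper48.FM

open Finset
open Pool.Agent.Helper53.WR
open Pool.Agent.Helper53.FM
open Pool.Agent.Helper48.FB (win crossF Cs WinLe Fs Dk LR zR dens)
open Pool.Agent.Helper48.WR (aSq uSq aSq_zero aSq_succ aSq_mono le_aSq aSq_add cut mem_cut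
  repF_cut_le repF_cut_zero lt_of_aSq_le sum_u_le exists_range)

/-- The statement of one level. -/
def LevM (W c F X J : ℕ) : Prop :=
  ∃ (T : Finset ℕ) (T' B : ℕ → Finset ℕ) (g : ℕ → ℕ),
    MTop J (Cs * (J + 1)) W c (fun R => (R + 1) * F) g T T' B ∧
    ∑ j ∈ range J, g j ≤ F * J ∧
    ∀ R, (B R).card * (R + 1) ≤ X * J ∧ ∀ j ∈ B R, j < J

lemma winLe_mono {A : Finset ℕ} {W W' : ℕ} (h : WinLe A W) (hW : W ≤ W') : WinLe A W' :=
  fun y l => (h y l).trans (Nat.mul_le_mul_right _ hW)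

lemma mtop_mono {J F w w' c c' : ℕ} {f f' g : ℕ → ℕ} {T : Finset ℕ} {T' B : ℕ → Finset ℕ}
    (h : MTop J F w c f g T T' B) (hf : ∀ i, f i ≤ f' i) (hw : w ≤ w') (hc : c ≤ c') :
    MTop J F w' c' f' g T T' B := by
  refine ⟨h.sub, h.lt, h.zo, ?_, h.rep, fun i n => (h.rep' i n).trans (hf i),
    winLe_mono h.wn (Nat.pow_le_pow_right (by norm_num) hw), h.prof, ?_⟩
  · intro n h1 h2
    obtain ⟨x, hx, y, hy, h3, h4, h5⟩ := h.cov n h1 h2
    exact ⟨x, hx, y, hy, h3, h4.trans (Nat.mul_le_mul_right _ hc),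
      h5.trans (Nat.mul_le_mul_right _ hc)⟩
  · intro i j h1 h2 h3 n h4 h5
    obtain ⟨x, hx, y, hy, h6, h7, h8⟩ := h.good i j h1 h2 h3 n h4 h5
    exact ⟨x, hx, y, hy, h6, h7.trans (Nat.mul_le_mul_right _ hc),
      h8.trans (Nat.mul_le_mul_right _ hc)⟩

lemma LevM.mono {W W' c c' F F' X X' J : ℕ} (h : LevM W c F X J) (hW : W ≤ W') (hc : c ≤ c')
    (hF : F ≤ F') (hX : X ≤ X') : LevM W' c' F' X' J := by
  obtain ⟨T, T', B, g, h1, h2, h3⟩ := h
  exact ⟨T, T', B, g, mtop_mono h1 (fun i => Nat.mul_le_mul_left _ hF) hW hc,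
    h2.trans (Nat.mul_le_mul_right _ hF),
    fun R => ⟨(h3 R).1.trans (Nat.mul_le_mul_right _ hX), (h3 R).2⟩⟩

lemma lev_base {s J : ℕ} (hJ : 100 ≤ J) (hJ2 : J ≤ 2 ^ (11 * s)) :
    LevM (11 * s + 5) 4 (Cs * (2 ^ (11 * s) + 1)) 0 J := by
  obtain ⟨T, hT⟩ := Pool.Agent.Helper8.FMR.mtop_base J hJ
  have h1 : Nat.log 2 (16 * J) ≤ 11 * s + 4 := by
    have h2 : 16 * J < 2 ^ (4 + 11 * s + 1) := by
      rw [pow_succ, pow_add]
      have h3 : 0 < 2 ^ (11 * s) := by positivity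
      omega
    have h4 : 16 * J ≠ 0 := by omega
    have := Nat.log_lt_of_lt_pow h4 h2
    omega
  have h5 : Cs * (J + 1) ≤ Cs * (2 ^ (11 * s) + 1) := Nat.mul_le_mul_left _ (by omega)
  refine ⟨T, fun _ => T, fun _ => ∅, fun _ => Cs * (J + 1), mtop_mono hT ?_ (by omega) le_rfl,
    ?_, ?_⟩
  · intro i
    exact h5.trans (Nat.le_mul_of_pos_left _ (by omega))
  · rw [sum_const, card_range, smul_eq_mul, mul_comm]
    exact Nat.mul_le_mul_right _ h5
  · intro R
    simp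

/-- The finite parts of a balanced basis. -/
lemma mtop_of (A : Set ℕ) (J W cc F : ℕ) (A' : ℕ → Set ℕ) (B' : ℕ → Finset ℕ)
    (hsub : ∀ R, A' R ⊆ A) (h01 : 0 ∈ A ∧ 1 ∈ A) (hJ : 1 ≤ J)
    (hcov : ∀ n, 2 ≤ n → n < 2 ^ J → ∃ x ∈ A, ∃ y ∈ A, x + y = n ∧ n ≤ cc * x ∧ n ≤ cc * y)
    (hrep : ∀ n, n < 2 ^ (J + 1) → rep A n ≤ Cs * (J + 1))
    (hrep' : ∀ R n, n < 2 ^ (J + 1) → rep (A' R) n ≤ (R + 1) * F)
    (hwin : WinLe (cut A J) (2 ^ W))
    (hgood : ∀ R j, 1 ≤ j → j < J → j ∉ B' R → BCov (A' R) cc j) :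
    MTop J (Cs * (J + 1)) W cc (fun R => (R + 1) * F) (blockMax A) (cut A J)
      (fun R => cut (A' R) J) B' := by
  have h2J : 1 < 2 ^ J := Nat.one_lt_pow (by omega) (by norm_num)
  refine ⟨?_, ?_, ?_, ?_, ?_, ?_, hwin, ?_, ?_⟩
  · intro R x hx
    rw [mem_cut] at hx ⊢
    exact ⟨hx.1, hsub R hx.2⟩
  · exact fun x hx => (mem_cut.1 hx).1
  · exact ⟨mem_cut.2 ⟨by omega, h01.1⟩, mem_cut.2 ⟨h2J, h01.2⟩⟩
  · intro n h1 h2
    obtain ⟨x, hx, y, hy, h3, h4, h5⟩ := hcov n h1 h2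
    exact ⟨x, mem_cut.2 ⟨by omega, hx⟩, y, mem_cut.2 ⟨by omega, hy⟩, h3, h4, h5⟩
  · intro n
    rcases lt_or_ge n (2 ^ (J + 1)) with hn | hn
    · exact (repF_cut_le A J n).trans (hrep n hn)
    · rw [repF_cut_zero A hn]
      exact Nat.zero_le _
  · intro R n
    rcases lt_or_ge n (2 ^ (J + 1)) with hn | hn
    · exact (repF_cut_le (A' R) J n).trans (hrep' R n hn)
    · rw [repF_cut_zero (A' R) hn]
      exact Nat.zero_le _
  · intro j n h1 h2
    refine (repF_cut_le A J n).trans ?_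
    unfold blockMax
    exact Finset.le_sup (f := fun n => rep A n) (mem_Ico.2 ⟨h1, h2⟩)
  · intro R j h1 h2 h3 n h4 h5
    obtain ⟨x, hx, y, hy, h6, h7, h8⟩ := hgood R j h1 h2 h3 n h4 h5
    have h9 : 2 ^ (j + 1) ≤ 2 ^ J := Nat.pow_le_pow_right (by norm_num) h2
    refine ⟨x, ?_, y, ?_, h6, h7, h8⟩
    · rw [Finset.mem_coe, mem_cut]
      exact ⟨by omega, hx⟩
    · rw [Finset.mem_coe, mem_cut]
      exact ⟨by omega, hy⟩

lemma exists_between {S : ℕ → ℕ} (hS : ∀ k, k ≤ S k) {j : ℕ} (hj : S 0 ≤ j) :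
    ∃ k, S k ≤ j ∧ j < S (k + 1) := by
  classical
  have hex : ∃ k, j < S (k + 1) := ⟨j, by have := hS (j + 1); omega⟩
  have h2 := Nat.find_spec hex
  refine ⟨Nat.find hex, ?_, h2⟩
  by_contra hcon
  push Not at hcon
  have h3 : Nat.find hex ≠ 0 := by
    intro h0
    rw [h0] at hcon
    omega
  have h4 := Nat.find_min hex (m := Nat.find hex - 1) (by omega)
  apply h4
  have h5 : Nat.find hex - 1 + 1 = Nat.find hex := by omega
  rw [h5]
  exact hcon

lemma zR_le {a u e κ w c : ℕ → ℕ} (h : MTow a u e κ w c) (k : ℕ) :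
    4 * a k ≤ zR a u k := by
  have h1 := h.tow.e300 k
  have h2 := h.tow.eu k
  unfold zR
  omega

lemma exists_zR {a u e κ w c : ℕ → ℕ} (h : MTow a u e κ w c) {J : ℕ} (hJ : zR a u 0 < J) :
    ∃ k, zR a u k < J ∧ J ≤ zR a u (k + 1) := by
  obtain ⟨k, h1, h2⟩ := exists_between (S := zR a u) (j := J - 1)
    (fun k => by have h1 := h.tow.le_a k; have h2 := zR_le h k; omega) (by omega)
  exact ⟨k, by omega, by omega⟩

/-- The bound `r ≤ Cs * J` below `2 ^ J`. -/
lemma rep_le_of_tower {a u e κ w c : ℕ → ℕ} (h : MTow a u e κ w c) {A : Set ℕ}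
    (hA : ∀ k n, n < 2 ^ zR a u k → rep A n ≤ 4 * Cs * a k) {J n : ℕ} (hJ : zR a u 0 < J)
    (hn : n < 2 ^ J) : rep A n ≤ Cs * J := by
  obtain ⟨k, hk1, hk2⟩ := exists_zR h hJ
  have h1 := hA (k + 1) n (lt_of_lt_of_le hn (Nat.pow_le_pow_right (by norm_num) hk2))
  refine h1.trans ?_
  have h2 := h.tow.step k
  have h3 := h.tow.e300 k
  have h4 := h.tow.eu k
  unfold zR at hk1
  calc 4 * Cs * a (k + 1) = Cs * (4 * a (k + 1)) := by ring
    _ ≤ Cs * J := Nat.mul_le_mul_left _ (by omega)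

/-- The exceptional blocks of a thin part below `J`. -/
def badM (a u e : ℕ → ℕ) (lg : ℕ) (v : ℕ → ℕ) (B : ℕ → Finset ℕ) (J : ℕ) (Ks : Finset ℕ) :
    Finset ℕ :=
  (range J).filter (fun j => j ∈ range (4 * a 0 + thT u e 0 + 9 + v 0 + lg) ∪
    Ks.biUnion (fun k => ((range 6).biUnion (fun i => (B k).image (fun t => t + 4 * a k + i))) ∪
      Ico (zR a u (k + 1)) (zR a u (k + 1) + (64 * e (k + 1) + 33 + v (k + 1) + lg))))

lemma badM_card_le (a u e : ℕ → ℕ) (lg : ℕ) (v : ℕ → ℕ) (B : ℕ → Finset ℕ) (J : ℕ)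
    (Ks : Finset ℕ) : (badM a u e lg v B J Ks).card ≤ 4 * a 0 + thT u e 0 + 9 + v 0 + lg +
      ∑ k ∈ Ks, (6 * (B k).card + (64 * e (k + 1) + 33 + v (k + 1) + lg)) := by
  unfold badM
  have hsub : ∀ (U : Finset ℕ), (range J).filter (fun j => j ∈ U) ⊆ U := by
    intro U j hj
    exact (mem_filter.1 hj).2
  refine le_trans (card_le_card (hsub _)) ?_
  refine le_trans (card_union_le _ _) ?_
  rw [card_range]
  refine Nat.add_le_add_left ?_ _
  refine le_trans card_biUnion_le ?_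
  refine sum_le_sum fun k _ => ?_
  refine le_trans (card_union_le _ _) ?_
  rw [Nat.card_Ico, Nat.add_sub_cancel_left]
  refine Nat.add_le_add_right ?_ _
  refine le_trans card_biUnion_le ?_
  refine le_trans (sum_le_card_nsmul _ _ (B k).card fun i _ => card_image_le) ?_
  rw [card_range, smul_eq_mul]

lemma good_of_notMem {a u e κ w c : ℕ → ℕ} (h : MTow a u e κ w c) {lg : ℕ} {v : ℕ → ℕ}
    {B : ℕ → Finset ℕ} {J : ℕ} {Ks : Finset ℕ} (hK : ∀ k, 4 * a k ≤ J → k ∈ Ks) {j : ℕ}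
    (hjJ : j < J) (hj : j ∉ badM a u e lg v B J Ks) : ∃ k, 4 * a k ≤ J ∧
      4 * a k + thT u e k + 9 + v k + lg ≤ j ∧ j + 1 ≤ zR a u (k + 1) ∧
      ∀ i, i ≤ 5 → j - 4 * a k - i ∉ B k := by
  unfold badM at hj
  rw [mem_filter, mem_range, not_and, mem_union, not_or, mem_range, mem_biUnion] at hj
  obtain ⟨hj1, hj2⟩ := hj hjJ
  push Not at hj1 hj2
  obtain ⟨k, hk1, hk2⟩ := exists_between (S := fun k => 4 * a k + thT u e k + 9 + v k + lg)
    (fun k => by have := h.tow.le_a k; omega) hj1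
  have hkJ : 4 * a k ≤ J := by omega
  have h2 := hj2 k (hK k hkJ)
  rw [mem_union, not_or, mem_biUnion, mem_Ico, not_and] at h2
  obtain ⟨h3, h4⟩ := h2
  push Not at h3 h4
  have hstep : 4 * a (k + 1) + thT u e (k + 1) + 9 + v (k + 1) + lg
      = zR a u (k + 1) + (64 * e (k + 1) + 33 + v (k + 1) + lg) := by
    have g1 := h.tow.e300 (k + 1)
    have g2 := h.tow.eu (k + 1)
    unfold zR thT
    omega
  have h5 : j + 1 ≤ zR a u (k + 1) := by
    by_contra hc
    push Not at hc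
    have := h4 (by omega)
    omega
  refine ⟨k, hkJ, hk1, h5, ?_⟩
  intro i hi hB
  have h6 := h3 i (mem_range.2 (by omega))
  apply h6
  rw [mem_image]
  refine ⟨j - 4 * a k - i, hB, ?_⟩
  have g1 := h.tow.e300 k
  have g2 : 5 ≤ thT u e k := by unfold thT; omega
  omega

lemma sum_shift_le (g : ℕ → ℕ) (S : Finset ℕ) (b D : ℕ) (hS : ∀ j ∈ S, b ≤ j ∧ j - b < D) :
    ∑ j ∈ S, g (j - b) ≤ ∑ i ∈ range D, g i := by
  have hinj : Set.InjOn (fun j => j - b) (S : Set ℕ) := by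
    intro x hx y hy hxy
    have h1 := (hS x hx).1
    have h2 := (hS y hy).1
    simp only at hxy
    omega
  calc ∑ j ∈ S, g (j - b) = ∑ i ∈ S.image (fun j => j - b), g i :=
        (sum_image (f := g) hinj).symm
    _ ≤ ∑ i ∈ range D, g i := by
        apply sum_le_sum_of_subset
        intro i hi
        obtain ⟨j, hj, rfl⟩ := mem_image.1 hi
        exact mem_range.2 (hS j hj).2

/-- The sum of the block maxima of a tower. -/
lemma sum_blockMax_le {a u e κ w c : ℕ → ℕ} (h : MTow a u e κ w c) {g : ℕ → ℕ → ℕ} {A : Set ℕ}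
    (hrep : ∀ k n, n < 2 ^ zR a u k → rep A n ≤ 4 * Cs * a k)
    (hprof : ∀ k j G, 4 * a k + thT u e k + 128 * e k ≤ j → j + 1 ≤ zR a u (k + 1) →
        (∀ l, l ≤ 5 → g k (j - 4 * a k - l) ≤ G) → ∀ n, 2 ^ j ≤ n → n < 2 ^ (j + 1) →
          rep A n ≤ 4096 ^ 2 * 2592 * G
            + 2 * (4096 * (tD (a k) (e k) (j - (4 * a k + thT u e k)) * Dk κ k))
            + 2 * tD (a k) (e k) (j - (4 * a k + thT u e k + 128 * e k)))
    {J : ℕ} (hJ : zR a u 0 < J) {Ks : Finset ℕ} (hK : ∀ k, 4 * a k ≤ J → k ∈ Ks) :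
    ∑ j ∈ range J, blockMax A j ≤
      (badM a u e 0 (fun k => 128 * e k) (fun _ => ∅) J Ks).card * (Cs * (J + 1)) +
      ∑ k ∈ Ks, (4096 ^ 2 * 2592 * (6 * ∑ i ∈ range (laT u k), g k i) +
        (2 * (4096 * Dk κ k) + 2) * (44 * a k * (Nat.log 2 J + 1) + J)) := by
  classical
  set E := badM a u e 0 (fun k => 128 * e k) (fun _ => ∅) J Ks with hE
  let P : ℕ → ℕ → Prop := fun k j => 4 * a k + thT u e k + 128 * e k ≤ j ∧ j + 1 ≤ zR a u (k + 1)
  let H : ℕ → ℕ → ℕ := fun k j =>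
    4096 ^ 2 * 2592 * (∑ l ∈ range 6, g k (j - (4 * a k + l)))
      + 2 * (4096 * (tD (a k) (e k) (j - (4 * a k + thT u e k)) * Dk κ k))
      + 2 * tD (a k) (e k) (j - (4 * a k + thT u e k + 128 * e k))
  have hmain : ∀ j ∈ range J, blockMax A j ≤ (if j ∈ E then Cs * (J + 1) else 0) +
      ∑ k ∈ Ks, (if P k j then H k j else 0) := by
    intro j hj
    have hjJ := mem_range.1 hj
    by_cases hjE : j ∈ E
    · rw [if_pos hjE]
      refine le_trans ?_ (Nat.le_add_right _ _)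
      unfold blockMax
      refine Finset.sup_le fun n hn => ?_
      have h1 := (mem_Ico.1 hn).2
      have h2 : n < 2 ^ J := lt_of_lt_of_le h1 (Nat.pow_le_pow_right (by norm_num) hjJ)
      exact (rep_le_of_tower h hrep hJ h2).trans (Nat.mul_le_mul_left _ (by omega))
    · rw [if_neg hjE, zero_add]
      obtain ⟨k, hkJ, hk1, hk2, -⟩ := good_of_notMem h hK hjJ hjE
      have hP : P k j := ⟨by omega, hk2⟩
      refine le_trans ?_ (single_le_sum (f := fun k => if P k j then H k j else 0)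
        (fun _ _ => Nat.zero_le _) (hK k hkJ))
      show blockMax A j ≤ if P k j then H k j else 0
      rw [if_pos hP]
      unfold blockMax
      refine Finset.sup_le fun n hn => ?_
      obtain ⟨h1, h2⟩ := mem_Ico.1 hn
      refine hprof k j _ hP.1 hP.2 (fun l hl => ?_) n h1 h2
      have h3 : j - 4 * a k - l = j - (4 * a k + l) := by omega
      rw [h3]
      exact single_le_sum (f := fun l => g k (j - (4 * a k + l))) (fun _ _ => Nat.zero_le _)
        (mem_range.2 (by omega))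
  refine (sum_le_sum hmain).trans ?_
  rw [sum_add_distrib]
  refine Nat.add_le_add ?_ ?_
  · rw [← sum_filter, sum_const, smul_eq_mul]
    refine Nat.mul_le_mul_right _ (card_le_card ?_)
    intro j hj
    exact (mem_filter.1 hj).2
  · rw [sum_comm]
    refine sum_le_sum fun k _ => ?_
    rw [← sum_filter]
    set S := (range J).filter (fun j => P k j) with hS
    have hSm : ∀ j ∈ S, j < J ∧ 4 * a k + thT u e k + 128 * e k ≤ j ∧ j + 1 ≤ zR a u (k + 1) := by
      intro j hj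
      have := mem_filter.1 hj
      exact ⟨mem_range.1 this.1, this.2.1, this.2.2⟩
    have hz : zR a u (k + 1) ≤ 4 * a k + laT u k := by
      have h1 := h.tow.step k
      have h2 := h.tow.e300 (k + 1)
      have h3 := h.tow.eu (k + 1)
      unfold zR laT
      omega
    have h1 : ∑ j ∈ S, (∑ l ∈ range 6, g k (j - (4 * a k + l)))
        ≤ 6 * ∑ i ∈ range (laT u k), g k i := by
      rw [sum_comm]
      calc ∑ l ∈ range 6, ∑ j ∈ S, g k (j - (4 * a k + l))
          ≤ ∑ l ∈ range 6, ∑ i ∈ range (laT u k), g k i := by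
            refine sum_le_sum fun l hl => ?_
            refine sum_shift_le (g k) S _ _ fun j hj => ?_
            obtain ⟨g1, g2, g3⟩ := hSm j hj
            have g4 := mem_range.1 hl
            have g5 := h.tow.e300 k
            have g6 : 6 ≤ thT u e k := by unfold thT; omega
            omega
        _ = 6 * ∑ i ∈ range (laT u k), g k i := by rw [sum_const, card_range, smul_eq_mul]
    have he1 : 1 ≤ e k := by have := h.tow.e300 k; omega
    have h2 : ∑ j ∈ S, tD (a k) (e k) (j - (4 * a k + thT u e k))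
        ≤ 44 * a k * (Nat.log 2 J + 1) + J := by
      refine (sum_shift_le _ S _ J fun j hj => ?_).trans (Pool.Agent.Helper12.FM.sum_tD_le (a k) (e k) J he1)
      obtain ⟨g1, g2, g3⟩ := hSm j hj
      omega
    have h3 : ∑ j ∈ S, tD (a k) (e k) (j - (4 * a k + thT u e k + 128 * e k))
        ≤ 44 * a k * (Nat.log 2 J + 1) + J := by
      refine (sum_shift_le _ S _ J fun j hj => ?_).trans (Pool.Agent.Helper12.FM.sum_tD_le (a k) (e k) J he1)
      obtain ⟨g1, g2, g3⟩ := hSm j hj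
      omega
    calc ∑ j ∈ S, H k j
        = 4096 ^ 2 * 2592 * ∑ j ∈ S, (∑ l ∈ range 6, g k (j - (4 * a k + l)))
          + 2 * (4096 * Dk κ k) * ∑ j ∈ S, tD (a k) (e k) (j - (4 * a k + thT u e k))
          + 2 * ∑ j ∈ S, tD (a k) (e k) (j - (4 * a k + thT u e k + 128 * e k)) := by
          simp only [H]
          rw [sum_add_distrib, sum_add_distrib, mul_sum, mul_sum, mul_sum]
          congr 2
          refine sum_congr rfl fun j _ => ?_
          ring
      _ ≤ 4096 ^ 2 * 2592 * (6 * ∑ i ∈ range (laT u k), g k i)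
          + 2 * (4096 * Dk κ k) * (44 * a k * (Nat.log 2 J + 1) + J)
          + 2 * (44 * a k * (Nat.log 2 J + 1) + J) := by
          gcongr
      _ = _ := by ring

end Pool.Agent.Helper48.FM
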